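import Pool.Agent.MP_67f0e4_gt.K.Base

/-! Interpolation: the Levi form is bounded by the oscillation and the third derivatives of the
Levi form. -/

namespace Pool.Agent.MP_67f0e4_gt.H71

open Set Filter Topology Metric K
open scoped ContDiff

/-- Smooth on the unit ball. -/
def SB (f : V → ℝ) : Prop := ContDiffOn ℝ ∞ f (ball 0 1)

theorem SB.diff {f : V → ℝ} (hf : SB f) {x : V} (hx : x ∈ ball (0 : V) 1) :
    DifferentiableAt ℝ f x :=
  (ContDiffOn.contDiffAt hf (isOpen_ball.mem_nhds hx)).differentiableAt (by simp)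

theorem SB.d {f : V → ℝ} (hf : SB f) (a : V) : SB (D a f) :=
  (ContDiffOn.fderiv_of_isOpen (m := ∞) hf isOpen_ball (by simp)).clm_apply contDiffOn_const

theorem SB.dl {f : V → ℝ} (hf : SB f) : ∀ l, SB (DL l f)
  | [] => hf
  | i :: l => (hf.dl l).d (e i)

theorem SB.lv {f : V → ℝ} (hf : SB f) (α : Fin 4) : SB fun y => lv f y α := by
  have h : ∀ a b, SB fun y => lev f y a b := fun a b =>
    ContDiffOn.add ((hf.d b).d a) ((hf.d _).d _)
  fin_cases α <;> exact h _ _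

theorem int_dl (c : Fin 4 → ℝ) (f : Fin 4 → V → ℝ) (hf : ∀ j, SB (f j)) (l : List (Fin 4)) :
    ∀ x ∈ ball (0 : V) 1, DL l (fun y => ∑ j, c j * f j y) x = ∑ j, c j * DL l (f j) x := by
  induction l with
  | nil => exact fun _ _ => rfl
  | cons i l ih =>
    intro x hx
    have h1 : DL l (fun y => ∑ j, c j * f j y) =ᶠ[𝓝 x] fun y => ∑ j, c j * DL l (f j) y :=
      (isOpen_ball.eventually_mem hx).mono ih
    have h2 := HasFDerivAt.fun_sum (u := Finset.univ) fun j _ =>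
      (((hf j).dl l).diff hx).hasFDerivAt.const_mul (c j)
    simp only [DL, D]
    rw [h1.fderiv_eq, h2.fderiv]
    simp

/-- Real coordinates. -/
def co (y : V) : Fin 4 → ℝ := ![y.1.re, y.1.im, y.2.re, y.2.im]

theorem co_sum (y : V) : y = ∑ j, co y j • e j := by
  ext <;> simp [co, e, Fin.sum_univ_four]

theorem co_le (y : V) (j : Fin 4) : |co y j| ≤ ‖y‖ := by
  have h1 := norm_fst_le y
  have h2 := norm_snd_le y
  fin_cases j
  · exact (Complex.abs_re_le_norm _).trans h1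
  · exact (Complex.abs_im_le_norm _).trans h1
  · exact (Complex.abs_re_le_norm _).trans h2
  · exact (Complex.abs_im_le_norm _).trans h2

theorem d_sum (y : V) (f : V → ℝ) : D y f = fun x => ∑ j, co y j * D (e j) f x := by
  funext x
  simp only [D]
  conv_lhs => rw [co_sum y]
  simp only [map_sum, map_smul, smul_eq_mul]

theorem dl_snoc (f : V → ℝ) (j : Fin 4) : ∀ l, DL l (D (e j) f) = DL (l ++ [j]) f
  | [] => rfl
  | i :: l => by simp only [DL, List.cons_append, dl_snoc f j l]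

/-- Bounded derivatives of order `k`. -/
def BK (k : ℕ) (B : ℝ) (f : V → ℝ) : Prop :=
  ∀ l : List (Fin 4), l.length = k → ∀ x ∈ ball (0 : V) 1, |DL l f x| ≤ B

theorem BK.comb {k : ℕ} {B A : ℝ} {c : Fin 4 → ℝ} {f : Fin 4 → V → ℝ} (hf : ∀ j, SB (f j))
    (hb : ∀ j, BK k B (f j)) (hc : ∀ j, |c j| ≤ A) :
    BK k (4 * A * B) fun y => ∑ j, c j * f j y := by
  intro l hl x hx
  rw [int_dl c f hf l x hx]
  refine (Finset.abs_sum_le_sum_abs _ _).trans ((Finset.sum_le_sum (g := fun _ => A * B)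
    fun j _ => ?_).trans (by simp [mul_assoc]))
  rw [abs_mul]
  exact mul_le_mul (hc j) (hb j l hl x hx) (abs_nonneg _) ((abs_nonneg _).trans (hc j))

theorem BK.d {k : ℕ} {B : ℝ} {f : V → ℝ} (hf : SB f) (hb : BK (k + 1) B f) (y : V) :
    BK k (4 * ‖y‖ * B) (D y f) := by
  rw [d_sum]
  refine BK.comb (fun j => hf.d _) (fun j l hl x hx => ?_) (co_le y)
  rw [dl_snoc]
  exact hb _ (by simp [hl]) x hx

theorem int_line {f : V → ℝ} (hf : SB f) (x η : V) (c t : ℝ)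
    (h : x + (c * t) • η ∈ ball (0 : V) 1) :
    HasDerivAt (fun t : ℝ => f (x + (c * t) • η)) (c * D η f (x + (c * t) • η)) t := by
  have h1 : HasDerivAt (fun t : ℝ => x + (c * t) • η) (c • η) t := by
    simpa using (((hasDerivAt_id t).const_mul c).smul_const η).const_add x
  have h2 := (hf.diff h).hasFDerivAt.comp_hasDerivAt t h1
  simp only [map_smul, smul_eq_mul] at h2
  exact h2

theorem int_step {a a' : ℝ → ℝ} {r B : ℝ} (h : ∀ t ∈ Icc 0 (r + 1), HasDerivAt a (a' t) t)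
    (hb : ∀ t ∈ Icc 0 (r + 1), |a' t| ≤ B) : ∀ t ∈ Icc 0 r, |a (t + 1) - a t| ≤ B := by
  intro t ht
  have h1 := (convex_Icc 0 (r + 1)).norm_image_sub_le_of_norm_hasDerivWithin_le
    (fun t ht => (h t ht).hasDerivWithinAt) hb (x := t) (y := t + 1)
    ⟨ht.1, by linarith [ht.2]⟩ ⟨by linarith [ht.1], by linarith [ht.2]⟩
  simpa using h1

theorem int_shift {a a' : ℝ → ℝ} {r : ℝ} (h : ∀ t ∈ Icc 0 (r + 1), HasDerivAt a (a' t) t) :
    ∀ t ∈ Icc 0 r, HasDerivAt (fun t => a (t + 1) - a t) (a' (t + 1) - a' t) t := fun t ht =>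
  ((h (t + 1) ⟨by linarith [ht.1], by linarith [ht.2]⟩).comp_add_const t 1).sub
    (h t ⟨ht.1, by linarith [ht.2]⟩)

theorem int_third {g : V → ℝ} {B : ℝ} (hg : SB g) (hb : BK 3 B g) (y : V) (hy : 3 * ‖y‖ < 1) :
    |g ((3 : ℝ) • y) - 3 * g ((2 : ℝ) • y) + 3 * g y - g 0| ≤ 64 * ‖y‖ ^ 3 * B := by
  have hm : ∀ t ∈ Icc (0 : ℝ) (0 + 1 + 1 + 1), (0 : V) + (1 * t) • y ∈ ball (0 : V) 1 := by
    intro t ht
    rw [mem_ball_zero_iff, zero_add, one_mul, norm_smul, Real.norm_of_nonneg ht.1]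
    nlinarith [ht.2, norm_nonneg y]
  have d0 := fun t ht => int_line hg 0 y 1 t (hm t ht)
  have d1 := fun t ht => int_line (hg.d y) 0 y 1 t (hm t ht)
  have d2 := fun t ht => int_line ((hg.d y).d y) 0 y 1 t (hm t ht)
  have b3 := fun t ht => ((((hg.d y).d y)) |> fun h2 => BK.d h2 (BK.d (hg.d y) (BK.d hg hb y) y) y)
    [] rfl _ (hm t ht)
  simp only [one_mul, zero_add (_ : V), DL] at d0 d1 d2 b3
  have h := int_step (int_shift (int_shift d0)) (int_step (int_shift d1) (int_step d2 b3)) 0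
    ⟨le_rfl, le_rfl⟩
  norm_num at h
  calc _ = |g ((3 : ℝ) • y) - g ((2 : ℝ) • y) - (g ((2 : ℝ) • y) - g y) -
      (g ((2 : ℝ) • y) - g y - (g y - g 0))| := by congr 1; ring
    _ ≤ 4 * ‖y‖ * (4 * ‖y‖ * (4 * ‖y‖ * B)) := h
    _ = _ := by ring

theorem int_qf {v : V → ℝ} (hv : SB v) {x : V} (hx : x ∈ ball (0 : V) 1) (ξ : V) :
    qf (lv v x) ξ = lev v x ξ ξ := by
  have h2 : ContDiffAt ℝ 2 v x :=
    (ContDiffOn.contDiffAt hv (isOpen_ball.mem_nhds hx)).of_le (WithTop.coe_le_coe.2 le_top)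
  have d : DifferentiableAt ℝ (fderiv ℝ v) x :=
    (h2.fderiv_right (m := 1) (by norm_num)).differentiableAt (by norm_num)
  obtain ⟨B, hB⟩ : ∃ B, B = fderiv ℝ (fderiv ℝ v) x := ⟨_, rfl⟩
  have h1 : ∀ a b, D a (D b v) x = B a b := fun a b => by
    rw [D, show D b v = fun y => fderiv ℝ v y b from rfl,
      fderiv_clm_apply d (differentiableAt_const b), hB]
    simp
  have hs : ∀ a b, B a b = B b a := fun a b => by
    rw [hB]
    exact (h2.isSymmSndFDerivAt (by simp)).eq a b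
  have i0 : Complex.I • e 0 = e 1 := by simp [e]
  have i2 : Complex.I • e 2 = e 3 := by simp [e]
  have i3 : Complex.I • e 3 = -e 2 := by simp [e]
  have x1 : ξ = ξ.1.re • e 0 + ξ.1.im • e 1 + ξ.2.re • e 2 + ξ.2.im • e 3 := by
    ext <;> simp [e]
  have x2 : Complex.I • ξ = (-ξ.1.im) • e 0 + ξ.1.re • e 1 + (-ξ.2.im) • e 2 + ξ.2.re • e 3 := by
    ext <;> simp [e, Complex.ext_iff]
  have x3 : lev v x ξ ξ = B (ξ.1.re • e 0 + ξ.1.im • e 1 + ξ.2.re • e 2 + ξ.2.im • e 3)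
      (ξ.1.re • e 0 + ξ.1.im • e 1 + ξ.2.re • e 2 + ξ.2.im • e 3) +
      B ((-ξ.1.im) • e 0 + ξ.1.re • e 1 + (-ξ.2.im) • e 2 + ξ.2.re • e 3)
        ((-ξ.1.im) • e 0 + ξ.1.re • e 1 + (-ξ.2.im) • e 2 + ξ.2.re • e 3) := by
    rw [lev, h1, h1, x2, ← x1]
  rw [x3]
  simp only [qf, bf, K.lv, lev, h1, i0, i2, i3, map_add, map_smul, map_neg, add_apply, smul_apply,
    smul_eq_mul, Matrix.cons_val_zero, Matrix.cons_val_one, Matrix.cons_val]
  rw [hs (e 1) (e 0), hs (e 2) (e 0), hs (e 3) (e 0), hs (e 2) (e 1), hs (e 3) (e 1),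
    hs (e 3) (e 2)]
  ring

theorem int_sec {ψ ψ₁ : ℝ → ℝ} {c : ℝ} (h1 : ∀ᶠ t in 𝓝 (0 : ℝ), HasDerivAt ψ (ψ₁ t) t)
    (h2 : HasDerivAt ψ₁ c 0) (hm : IsLocalMax ψ 0) : c ≤ 0 := by
  by_contra hc
  have e1 : deriv ψ =ᶠ[𝓝 0] ψ₁ := h1.mono fun t ht => ht.deriv
  have e2 : deriv (deriv ψ) 0 = c := by rw [e1.deriv_eq, h2.deriv]
  have h3 := isLocalMin_of_deriv_deriv_pos (by rw [e2]; exact not_le.1 hc) hm.deriv_eq_zero
    h1.self_of_nhds.continuousAt
  have e3 : ψ =ᶠ[𝓝 0] fun _ => ψ 0 := (hm.and h3).mono fun t ht => le_antisymm ht.1 ht.2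
  rw [e3.deriv.deriv_eq] at e2
  simp at e2
  exact hc e2.ge

theorem int_disc {v : V → ℝ} (hv : SB v) {E s m : ℝ} {ξ : V} (hξ : ‖ξ‖ ≤ 1) (hs : 0 < s)
    (hs4 : s ≤ 1 / 4) (hE : ∀ x ∈ ball (0 : V) 1, ∀ y ∈ ball (0 : V) 1, v x - v y ≤ E)
    (hm : ∀ y : V, ‖y‖ ≤ s → m ≤ lev v ((3 : ℝ) • y) ξ ξ - 3 * lev v ((2 : ℝ) • y) ξ ξ +
      3 * lev v y ξ ξ) : m ≤ 16 * (E / s ^ 2) := by
  refine le_of_forall_lt_imp_le_of_dense fun lam hl => ?_
  have hn : ∀ w : ℂ, ‖w • ξ‖ ≤ ‖w‖ := fun w => by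
    rw [norm_smul]
    exact mul_le_of_le_one_right (norm_nonneg _) hξ
  have hb : ∀ (c : ℝ) (w : ℂ), 0 ≤ c → c ≤ 3 → ‖w‖ < 1 / 3 → c • w • ξ ∈ ball (0 : V) 1 := by
    intro c w h0 h3 hw
    rw [mem_ball_zero_iff, norm_smul, Real.norm_of_nonneg h0]
    nlinarith [hn w, norm_nonneg (w • ξ)]
  obtain ⟨Y, hY⟩ : ∃ Y : ℂ → ℝ, Y = fun w => v ((3 : ℝ) • w • ξ) / 9 -
    3 * v ((2 : ℝ) • w • ξ) / 4 + 3 * v ((1 : ℝ) • w • ξ) - lam / 4 * (w.re ^ 2 + w.im ^ 2) :=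
    ⟨_, rfl⟩
  have hc : ∀ c : ℝ, 0 ≤ c → c ≤ 3 → ContinuousOn (fun w : ℂ => v (c • w • ξ)) (closedBall 0 s) :=
    fun c h0 h3 => (ContDiffOn.continuousOn hv).comp (by fun_prop) fun w hw =>
      hb c w h0 h3 (by linarith [mem_closedBall_zero_iff.1 hw])
  have hYc : ContinuousOn Y (closedBall 0 s) := by
    rw [hY]
    exact ((((hc 3 (by norm_num) le_rfl).div_const 9).sub ((continuousOn_const.mul
      (hc 2 (by norm_num) (by norm_num))).div_const 4)).add (continuousOn_const.mul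
        (hc 1 (by norm_num) (by norm_num)))).sub (by fun_prop)
  obtain ⟨w, hw, hmax⟩ := (isCompact_closedBall (0 : ℂ) s).exists_isMaxOn
    ⟨0, mem_closedBall_self hs.le⟩ hYc
  have hw1 := mem_closedBall_zero_iff.1 hw
  have hws : ‖w‖ = s := by
    by_contra hne
    have hlt : ‖w‖ < s := lt_of_le_of_ne hw1 hne
    have hloc : IsLocalMax Y w :=
      hmax.isLocalMax (closedBall_mem_nhds_of_mem (mem_ball_zero_iff.2 hlt))
    have key : ∀ a : ℂ, a.re ^ 2 + a.im ^ 2 = 1 →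
        D (a • ξ) (D (a • ξ) v) ((3 : ℝ) • w • ξ) - 3 * D (a • ξ) (D (a • ξ) v) ((2 : ℝ) • w • ξ) +
          3 * D (a • ξ) (D (a • ξ) v) ((1 : ℝ) • w • ξ) - lam / 2 ≤ 0 := by
      intro a ha
      have hp : ∀ c t : ℝ, c • (w + t * a) • ξ = c • w • ξ + (c * t) • a • ξ := fun c t => by
        rw [add_smul, smul_add, mul_smul, mul_smul c, Complex.coe_smul]
      have hA : Continuous fun t : ℝ => w + t * a := by fun_prop
      have h0 : ∀ᶠ t : ℝ in 𝓝 0, ‖w + t * a‖ < 1 / 3 :=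
        hA.norm.continuousAt.eventually (gt_mem_nhds (by
          simp only [Complex.ofReal_zero, zero_mul, add_zero]
          linarith))
      have l := fun (f : V → ℝ) (hf : SB f) (c t : ℝ) (h0 : 0 ≤ c) (h3 : c ≤ 3)
        (ht : ‖w + t * a‖ < 1 / 3) => int_line hf (c • w • ξ) (a • ξ) c t (hp c t ▸ hb c _ h0 h3 ht)
      have q1 : ∀ t : ℝ, HasDerivAt (fun t : ℝ => (w.re + t * a.re) ^ 2 + (w.im + t * a.im) ^ 2)
          (2 * (w.re * a.re + w.im * a.im) + 2 * t) t := fun t => by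
        refine (((((hasDerivAt_id t).mul_const a.re).const_add w.re).pow 2).add
          ((((hasDerivAt_id t).mul_const a.im).const_add w.im).pow 2)).congr_deriv ?_
        simp only [id]
        norm_num
        linear_combination 2 * t * ha
      have hloc' : IsLocalMax (fun t : ℝ => Y (w + t * a)) 0 :=
        IsLocalMax.comp_continuous (f := Y) (g := fun t : ℝ => w + t * a) (by simpa using hloc)
          hA.continuousAt
      have e0 : (fun t : ℝ => Y (w + t * a)) = fun t : ℝ =>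
          v ((3 : ℝ) • w • ξ + (3 * t) • a • ξ) / 9 -
            3 * v ((2 : ℝ) • w • ξ + (2 * t) • a • ξ) / 4 +
            3 * v ((1 : ℝ) • w • ξ + (1 * t) • a • ξ) -
              lam / 4 * ((w.re + t * a.re) ^ 2 + (w.im + t * a.im) ^ 2) := by
        funext t
        simp only [hY, hp, Complex.add_re, Complex.add_im, Complex.re_ofReal_mul,
          Complex.im_ofReal_mul]
      rw [e0] at hloc'
      have t0 := h0.self_of_nhds
      have h := int_sec (h0.mono fun t ht =>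
        (((((l v hv 3 t (by norm_num) le_rfl ht).div_const 9).sub
        (((l v hv 2 t (by norm_num) (by norm_num) ht).const_mul 3).div_const 4)).add
          ((l v hv 1 t (by norm_num) (by norm_num) ht).const_mul 3)).sub
            ((q1 t).const_mul (lam / 4))))
        ((((((l _ (hv.d (a • ξ)) 3 0 (by norm_num) le_rfl t0).const_mul 3).div_const 9).sub
          ((((l _ (hv.d (a • ξ)) 2 0 (by norm_num) (by norm_num) t0).const_mul 2).const_mul
            3).div_const 4)).add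
          (((l _ (hv.d (a • ξ)) 1 0 (by norm_num) (by norm_num) t0).const_mul 1).const_mul 3)).sub
            ((((hasDerivAt_id (0 : ℝ)).const_mul 2).const_add
              (2 * (w.re * a.re + w.im * a.im))).const_mul (lam / 4))) hloc'
      simp only [mul_zero, zero_smul, add_zero] at h
      linarith
    have k1 := key 1 (by simp)
    have k2 := key Complex.I (by simp)
    have k3 := hm (w • ξ) ((hn w).trans hw1)
    simp only [one_smul] at k1 k2
    simp only [lev] at k3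
    linarith
  have h1 : Y 0 ≤ Y w := hmax (mem_closedBall_self hs.le)
  have h2 : w.re ^ 2 + w.im ^ 2 = s ^ 2 := by
    rw [← hws, Complex.sq_norm, Complex.normSq_apply]
    ring
  have h0 : (0 : V) ∈ ball (0 : V) 1 := mem_ball_self one_pos
  have hw3 : ‖w‖ < 1 / 3 := by linarith
  have a3 := hE _ (hb 3 w (by norm_num) le_rfl hw3) _ h0
  have a2 := hE _ h0 _ (hb 2 w (by norm_num) (by norm_num) hw3)
  have a1 := hE _ (hb 1 w (by norm_num) (by norm_num) hw3) _ h0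
  have a0 := hE _ h0 _ h0
  simp only [hY, h2, zero_smul, smul_zero, Complex.zero_re, Complex.zero_im] at h1
  rw [← mul_div_assoc, le_div_iff₀ (by positivity)]
  linarith

theorem int_unit {v : V → ℝ} (hv : SB v) {E M s : ℝ} {ξ : V} (hξ : ‖ξ‖ ≤ 1) (hs : 0 < s)
    (hs4 : s ≤ 1 / 4) (hE : ∀ x ∈ ball (0 : V) 1, ∀ y ∈ ball (0 : V) 1, v x - v y ≤ E)
    (hM : LB 3 M v (ball 0 1)) : |qf (lv v 0) ξ| ≤ 16 * (E / s ^ 2) + 1024 * (M * s ^ 3) := by
  have h0 : (0 : V) ∈ ball (0 : V) 1 := mem_ball_self one_pos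
  have hM0 : 0 ≤ M := (abs_nonneg _).trans (hM [] (by simp) 0 0 h0)
  obtain ⟨c, hc⟩ : ∃ c : Fin 4 → ℝ, c = ![ξ.1.re ^ 2 + ξ.1.im ^ 2, ξ.2.re ^ 2 + ξ.2.im ^ 2,
    2 * (ξ.1.re * ξ.2.re + ξ.1.im * ξ.2.im), 2 * (ξ.1.re * ξ.2.im - ξ.1.im * ξ.2.re)] := ⟨_, rfl⟩
  have c0 : |ξ.1.re| ≤ 1 := (co_le ξ 0).trans hξ
  have c1 : |ξ.1.im| ≤ 1 := (co_le ξ 1).trans hξ
  have c2 : |ξ.2.re| ≤ 1 := (co_le ξ 2).trans hξ
  have c3 : |ξ.2.im| ≤ 1 := (co_le ξ 3).trans hξ
  have hmul : ∀ {a b : ℝ}, |a| ≤ 1 → |b| ≤ 1 → -1 ≤ a * b ∧ a * b ≤ 1 := fun ha hb =>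
    abs_le.1 (by rw [abs_mul]; exact mul_le_one₀ ha (abs_nonneg _) hb)
  have hc4 : ∀ j, |c j| ≤ 4 := by
    have := hmul c0 c0
    have := hmul c1 c1
    have := hmul c2 c2
    have := hmul c3 c3
    have := hmul c0 c2
    have := hmul c1 c3
    have := hmul c0 c3
    have := hmul c1 c2
    intro j
    rw [hc]
    fin_cases j <;> simp only [Fin.reduceFinMk, Matrix.cons_val] <;>
      exact abs_le.2 ⟨by nlinarith, by nlinarith⟩
  obtain ⟨g, hg⟩ : ∃ g : V → ℝ, g = fun y => ∑ j, c j * lv v y j := ⟨_, rfl⟩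
  have g1 : ∀ y, g y = qf (lv v y) ξ := fun y => by
    simp only [hg, hc, qf, bf, Fin.sum_univ_four, Matrix.cons_val_zero, Matrix.cons_val_one,
      Matrix.cons_val]
    ring
  have g2 : SB g := by
    rw [hg]
    exact ContDiffOn.sum fun j _ => contDiffOn_const.mul (hv.lv j)
  have g3 : BK 3 (4 * 4 * M) g := by
    rw [hg]
    exact BK.comb hv.lv (fun j l hl x hx => hM l hl.le j x hx) hc4
  have g4 : ∀ y : V, ‖y‖ ≤ s → |lev v ((3 : ℝ) • y) ξ ξ - 3 * lev v ((2 : ℝ) • y) ξ ξ +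
      3 * lev v y ξ ξ - qf (lv v 0) ξ| ≤ 1024 * (M * s ^ 3) := by
    intro y hy
    have hb : ∀ c : ℝ, 0 ≤ c → c ≤ 3 → c • y ∈ ball (0 : V) 1 := fun c h0 h3 => by
      rw [mem_ball_zero_iff, norm_smul, Real.norm_of_nonneg h0]
      nlinarith [norm_nonneg y]
    have h := int_third g2 g3 y (by linarith)
    rw [g1, g1, g1, g1, int_qf hv (hb 3 (by norm_num) le_rfl),
      int_qf hv (hb 2 (by norm_num) (by norm_num)),
      int_qf hv (mem_ball_zero_iff.2 (by linarith : ‖y‖ < 1))] at h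
    calc _ ≤ 64 * ‖y‖ ^ 3 * (4 * 4 * M) := h
      _ ≤ 64 * s ^ 3 * (4 * 4 * M) := by gcongr
      _ = _ := by ring
  have dn : ∀ (a : V) (f : V → ℝ), D a (fun x => -f x) = fun x => -D a f x := fun a f => by
    funext x
    simp [D, fderiv_fun_neg]
  have ln : ∀ x, lev (fun x => -v x) x ξ ξ = -lev v x ξ ξ := fun x => by
    simp only [lev, dn]
    ring
  have u1 := int_disc hv hξ hs hs4 hE (m := qf (lv v 0) ξ - 1024 * (M * s ^ 3)) fun y hy => by
    linarith [(abs_le.1 (g4 y hy)).1]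
  have u2 := int_disc (v := fun x => -v x) (E := E) (ContDiffOn.neg hv) hξ hs hs4
    (fun x hx y hy => by linarith [hE y hy x hx]) (m := -qf (lv v 0) ξ - 1024 * (M * s ^ 3))
    fun y hy => by
      rw [ln, ln, ln]
      linarith [(abs_le.1 (g4 y hy)).2]
  exact abs_le.2 ⟨by linarith, by linarith⟩

/-- The interpolation inequality. -/
theorem intp : ∃ C > 0, ∀ (v : V → ℝ) (E M s : ℝ), ContDiffOn ℝ ∞ v (ball 0 1) →
    (∀ x ∈ ball (0 : V) 1, ∀ y ∈ ball (0 : V) 1, v x - v y ≤ E) → LB 3 M v (ball 0 1) → 0 < s →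
    s ≤ 1 / 4 → ∀ ξ, |qf (lv v 0) ξ| ≤ C * (E / s ^ 2 + M * s ^ 3) * ‖ξ‖ ^ 2 := by
  refine ⟨1024, by norm_num, fun v E M s hv hE hM hs hs4 ξ => ?_⟩
  have h0 : (0 : V) ∈ ball (0 : V) 1 := mem_ball_self one_pos
  have hE0 : 0 ≤ E / s ^ 2 := div_nonneg (by simpa using hE 0 h0 0 h0) (by positivity)
  by_cases hξ : ξ = 0
  · simp [hξ, qf, bf]
  · have hn : 0 < ‖ξ‖ := norm_pos_iff.2 hξ
    have h := int_unit hv (ξ := ‖ξ‖⁻¹ • ξ) (by rw [norm_smul, norm_inv, norm_norm,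
      inv_mul_cancel₀ hn.ne']) hs hs4 hE hM
    have e1 : qf (lv v 0) ξ = qf (lv v 0) (‖ξ‖⁻¹ • ξ) * ‖ξ‖ ^ 2 := by
      simp only [qf, bf, Prod.smul_fst, Prod.smul_snd, Complex.smul_re, Complex.smul_im,
        smul_eq_mul]
      field_simp
    rw [e1, abs_mul, abs_of_nonneg (sq_nonneg ‖ξ‖)]
    exact mul_le_mul_of_nonneg_right (by linarith) (sq_nonneg _)

end Pool.Agent.MP_67f0e4_gt.H71
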