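import Pool.Agent.MP_67f0e4_gt.H71.Int
import Pool.Agent.MP_67f0e4_gt.K.Spec
import Pool.Agent.MP_67f0e4_gt.K.Chain

/-! Interpolation with fourth derivatives of the Levi form. -/

namespace Pool.Agent.MP_67f0e4_gt.H71

open Set Filter Topology Metric K
open scoped ContDiff

theorem i4_D (c : ℝ) (a : V) (f : V → ℝ) :
    D a (fun x => f (c • x)) = fun x => c * D a f (c • x) := by
  funext x
  simp only [D, fderiv_comp_smul, smul_apply, smul_eq_mul]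

theorem i4_DL (c : ℝ) (f : V → ℝ) : ∀ l : List (Fin 4),
    DL l (fun x => f (c • x)) = fun x => c ^ l.length * DL l f (c • x)
  | [] => by simp [DL]
  | i :: l => by
    rw [DL, i4_DL c f l, D_const_mul, i4_D]
    funext x
    simp only [DL, List.length_cons]
    ring

theorem i4_DLc (c : ℝ) (f : V → ℝ) : ∀ l : List (Fin 4),
    DL l (fun x => c * f x) = fun x => c * DL l f x
  | [] => rfl
  | i :: l => by rw [DL, i4_DLc c f l, D_const_mul]; rfl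

theorem i4_lev (c : ℝ) (f : V → ℝ) (x a b : V) :
    lev (fun x => f (c • x)) x a b = c ^ 2 * lev f (c • x) a b := by
  simp only [lev, i4_D, D_const_mul]
  ring

theorem i4_lv (c : ℝ) (f : V → ℝ) (x : V) (α : Fin 4) :
    lv (fun x => f (c • x)) x α = c ^ 2 * lv f (c • x) α := by
  fin_cases α <;> exact i4_lev c f x _ _

theorem i4_fourth {g : V → ℝ} {B : ℝ} (hg : SB g) (hb : BK 4 B g) (y : V) (hy : 3 * ‖y‖ < 1) :
    |g ((3 : ℝ) • y) + g ((-3 : ℝ) • y) - 3 * (g ((2 : ℝ) • y) + g ((-2 : ℝ) • y)) +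
      3 * (g y + g (-y)) - 2 * g 0| ≤ 768 * ‖y‖ ^ 4 * B := by
  have hp : ∀ t : ℝ, (-3 : ℝ) • y + (1 * t) • y = (t - 3) • y := fun t => by
    rw [← add_smul]; congr 1; ring
  have hm : ∀ t ∈ Icc (0 : ℝ) (2 + 1 + 1 + 1 + 1),
      (-3 : ℝ) • y + (1 * t) • y ∈ ball (0 : V) 1 := by
    intro t ht
    rw [mem_ball_zero_iff, hp, norm_smul, Real.norm_eq_abs]
    have : |t - 3| ≤ 3 := abs_le.2 ⟨by linarith [ht.1], by linarith [ht.2]⟩
    nlinarith [norm_nonneg y]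
  have d0 := fun t ht => int_line hg _ y 1 t (hm t ht)
  have d1 := fun t ht => int_line (hg.d y) _ y 1 t (hm t ht)
  have d2 := fun t ht => int_line ((hg.d y).d y) _ y 1 t (hm t ht)
  have d3 := fun t ht => int_line (((hg.d y).d y).d y) _ y 1 t (hm t ht)
  have b4 := fun t ht => (BK.d (((hg.d y).d y).d y) (BK.d ((hg.d y).d y) (BK.d (hg.d y)
    (BK.d hg hb y) y) y) y) [] rfl _ (hm t ht)
  simp only [hp] at d0 d1 d2 d3 b4
  simp only [one_mul (_ : ℝ), DL] at d0 d1 d2 d3 b4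
  have h := int_step (int_shift (int_shift (int_shift d0))) (int_step (int_shift (int_shift d1))
    (int_step (int_shift d2) (int_step d3 b4)))
  have h0 := abs_le.1 (h 0 (by norm_num))
  have h1 := abs_le.1 (h 1 (by norm_num))
  have h2 := abs_le.1 (h 2 (by norm_num))
  norm_num at h0 h1 h2 ⊢
  refine abs_le.2 ⟨?_, ?_⟩ <;> linarith [h0.1, h0.2, h1.1, h1.2, h2.1, h2.2]

theorem i4_g {v : V → ℝ} (hv : SB v) {ξ : V} (hξ : ‖ξ‖ ≤ 1) {M : ℝ}
    (hM : ∀ j, BK 4 M fun y => lv v y j) :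
    SB (fun y => qf (lv v y) ξ) ∧ BK 4 (4 * 4 * M) fun y => qf (lv v y) ξ := by
  obtain ⟨c, hc⟩ : ∃ c : Fin 4 → ℝ, c = ![ξ.1.re ^ 2 + ξ.1.im ^ 2, ξ.2.re ^ 2 + ξ.2.im ^ 2,
    2 * (ξ.1.re * ξ.2.re + ξ.1.im * ξ.2.im), 2 * (ξ.1.re * ξ.2.im - ξ.1.im * ξ.2.re)] := ⟨_, rfl⟩
  have c0 : |ξ.1.re| ≤ 1 := (co_le ξ 0).trans hξ
  have c1 : |ξ.1.im| ≤ 1 := (co_le ξ 1).trans hξ
  have c2 : |ξ.2.re| ≤ 1 := (co_le ξ 2).trans hξ
  have c3 : |ξ.2.im| ≤ 1 := (co_le ξ 3).trans hξ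
  have hmul : ∀ {a b : ℝ}, |a| ≤ 1 → |b| ≤ 1 → -1 ≤ a * b ∧ a * b ≤ 1 := fun ha hb =>
    abs_le.1 (by rw [abs_mul]; exact mul_le_one₀ ha (abs_nonneg _) hb)
  have hc4 : ∀ j, |c j| ≤ 4 := by
    have := hmul c0 c0
    have := hmul c1 c1
    have := hmul c2 c2
    have := hmul c3 c3
    have := hmul c0 c2
    have := hmul c1 c3
    have := hmul c0 c3
    have := hmul c1 c2
    intro j
    rw [hc]
    fin_cases j <;> simp only [Fin.reduceFinMk, Matrix.cons_val] <;>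
      exact abs_le.2 ⟨by nlinarith, by nlinarith⟩
  have g1 : (fun y => qf (lv v y) ξ) = fun y => ∑ j, c j * lv v y j := by
    funext y
    simp only [hc, qf, bf, Fin.sum_univ_four, Matrix.cons_val_zero, Matrix.cons_val_one,
      Matrix.cons_val]
    ring
  rw [g1]
  exact ⟨ContDiffOn.sum fun j _ => contDiffOn_const.mul (hv.lv j), BK.comb hv.lv hM hc4⟩

theorem i4_unit {v : V → ℝ} (hv : SB v) {E M s : ℝ} {ξ : V} (hξ : ‖ξ‖ ≤ 1) (hs : 0 < s)
    (hs4 : s ≤ 1 / 4) (hE : ∀ x ∈ ball (0 : V) 1, ∀ y ∈ ball (0 : V) 1, v x - v y ≤ E)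
    (hM : ∀ j, BK 4 M fun y => lv v y j) :
    qf (lv v 0) ξ ≤ 16 * (E / s ^ 2) + 6144 * (M * s ^ 4) := by
  have h0 : (0 : V) ∈ ball (0 : V) 1 := mem_ball_self one_pos
  have hM0 : 0 ≤ M := (abs_nonneg _).trans (hM 0 [0, 0, 0, 0] rfl 0 h0)
  obtain ⟨g2, g3⟩ := i4_g hv hξ hM
  have hn : ∀ x ∈ ball (0 : V) 1, (-1 : ℝ) • x ∈ ball (0 : V) 1 := fun x hx => by simpa using hx
  have hv' : SB fun x => v ((-1 : ℝ) • x) :=
    ContDiffOn.comp hv (contDiff_id.const_smul (-1 : ℝ)).contDiffOn hn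
  have hu : SB fun x => v x + v ((-1 : ℝ) • x) := ContDiffOn.add hv hv'
  have at2 : ∀ {f : V → ℝ}, SB f → ∀ x ∈ ball (0 : V) 1, ContDiffAt ℝ 2 f x := fun hf x hx =>
    (ContDiffOn.contDiffAt hf (isOpen_ball.mem_nhds hx)).of_le two_le_inf
  have lu : ∀ x ∈ ball (0 : V) 1, lev (fun x => v x + v ((-1 : ℝ) • x)) x ξ ξ =
      qf (lv v x) ξ + qf (lv v ((-1 : ℝ) • x)) ξ := by
    intro x hx
    rw [← qf_lv (at2 hu x hx), lv_add (at2 hv x hx) (at2 hv' x hx), qf_add,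
      qf_lv (at2 hv' x hx), i4_lev, qf_lv (at2 hv _ (hn x hx))]
    norm_num
  have u1 := int_disc hu hξ hs hs4 (E := 2 * E)
    (fun x hx y hy => by linarith [hE x hx y hy, hE _ (hn x hx) _ (hn y hy)])
    (m := 2 * qf (lv v 0) ξ - 12288 * (M * s ^ 4)) fun y hy => by
      have hb : ∀ c : ℝ, 0 ≤ c → c ≤ 3 → c • y ∈ ball (0 : V) 1 := fun c h0 h3 => by
        rw [mem_ball_zero_iff, norm_smul, Real.norm_of_nonneg h0]
        nlinarith [norm_nonneg y]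
      have h := (abs_le.1 (i4_fourth g2 g3 y (by linarith))).1
      have h' : 768 * ‖y‖ ^ 4 * (4 * 4 * M) ≤ 768 * s ^ 4 * (4 * 4 * M) := by gcongr
      rw [lu _ (hb 3 (by norm_num) le_rfl), lu _ (hb 2 (by norm_num) (by norm_num)),
        lu _ (mem_ball_zero_iff.2 (by linarith : ‖y‖ < 1))]
      simp only [smul_smul, neg_smul, one_smul, one_mul, neg_mul] at h ⊢
      linarith
  rw [mul_div_assoc] at u1
  linarith

theorem i4_norm {v : V → ℝ} (hv : SB v) {E M s : ℝ} (hs : 0 < s)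
    (hs4 : s ≤ 1 / 4) (hE : ∀ x ∈ ball (0 : V) 1, ∀ y ∈ ball (0 : V) 1, v x - v y ≤ E)
    (hM : ∀ j, BK 4 M fun y => lv v y j) :
    ‖lv v 0‖ ≤ 2 * (16 * (E / s ^ 2) + 6144 * (M * s ^ 4)) := by
  refine norm_le_of_qf fun ξ => ?_
  by_cases hξ : ξ = 0
  · simp [hξ, qf, bf]
  · have hn : 0 < ‖ξ‖ := norm_pos_iff.2 hξ
    have h1 : ‖‖ξ‖⁻¹ • ξ‖ ≤ 1 := by rw [norm_smul, norm_inv, norm_norm, inv_mul_cancel₀ hn.ne']
    have u1 := i4_unit hv h1 hs hs4 hE hM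
    have u2 := i4_unit (v := fun x => -v x) (E := E) (M := M) (ContDiffOn.neg hv) h1 hs hs4
      (fun x hx y hy => by linarith [hE y hy x hx]) fun j l hl x hx => by
        have e1 : (fun y => lv (fun x => -v x) y j) = fun y => (-1 : ℝ) * lv v y j := by
          funext y; rw [lv_neg]; simp
        rw [e1, i4_DLc]
        simpa using hM j l hl x hx
    rw [lv_neg, qf_neg] at u2
    have e1 : qf (lv v 0) ξ = qf (lv v 0) (‖ξ‖⁻¹ • ξ) * ‖ξ‖ ^ 2 := by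
      rw [qf_rsmul]
      field_simp
    rw [e1, abs_mul, abs_of_nonneg (sq_nonneg ‖ξ‖)]
    exact mul_le_mul_of_nonneg_right (abs_le.2 ⟨by linarith, u1⟩) (sq_nonneg _)

theorem int : K.INT := by
  intro r hr M
  refine ⟨max (M ^ 3 * 4 ^ 12) ((2 * (32 + 6144 * (r ^ 6 * M)) / r ^ 2) ^ 3),
    fun v ε hv hM hε => ?_⟩
  have h0 : (0 : V) ∈ ball (0 : V) r := mem_ball_self hr
  have hε0 : 0 ≤ ε := (abs_nonneg _).trans (hε 0 h0)
  have hM0 : 0 ≤ M := (abs_nonneg _).trans (hM [] (by simp) 0 0 h0)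
  rcases hε0.eq_or_lt with rfl | hpos
  · have : v =ᶠ[𝓝 0] fun _ => v 0 := (isOpen_ball.eventually_mem h0).mono fun x hx =>
      sub_eq_zero.1 (abs_nonpos_iff.1 (hε x hx))
    rw [lv_congr this, lv_const]
    simp
  obtain ⟨s, hs, hs6⟩ : ∃ s : ℝ, 0 < s ∧ s ^ 6 = ε :=
    ⟨ε ^ (((6 : ℕ) : ℝ)⁻¹), Real.rpow_pos_of_pos hpos _,
      Real.rpow_inv_natCast_pow hε0 (by norm_num)⟩
  by_cases hs4 : s ≤ 1 / 4
  · have hm : ∀ x ∈ ball (0 : V) 1, r • x ∈ ball (0 : V) r := fun x hx => by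
      rw [mem_ball_zero_iff] at hx ⊢
      rw [norm_smul, Real.norm_of_nonneg hr.le]
      nlinarith
    have hw : SB fun x => v (r • x) := ContDiffOn.comp hv (contDiff_id.const_smul r).contDiffOn hm
    have h := i4_norm hw (E := 2 * ε) (M := r ^ 6 * M) hs hs4 (fun x hx y hy => by
      have a := abs_le.1 (hε _ (hm x hx))
      have b := abs_le.1 (hε _ (hm y hy))
      linarith [a.2, b.1]) fun j l hl x hx => by
        have e1 : (fun y => lv (fun x => v (r • x)) y j) =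
            fun y => r ^ 2 * (fun z => lv v z j) (r • y) := funext fun y => i4_lv r v y j
        rw [e1, i4_DLc, i4_DL r fun z => lv v z j]
        simp only [hl]
        rw [← mul_assoc, abs_mul, abs_of_nonneg (by positivity), ← pow_add]
        exact mul_le_mul_of_nonneg_left (hM l hl.le j _ (hm x hx)) (by positivity)
    have e2 : lv (fun x => v (r • x)) 0 = r ^ 2 • lv v 0 := by
      funext j
      rw [i4_lv, smul_zero]
      rfl
    rw [e2, norm_smul, Real.norm_of_nonneg (by positivity), ← hs6] at h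
    have h1 : ‖lv v 0‖ ≤ 2 * (32 + 6144 * (r ^ 6 * M)) / r ^ 2 * s ^ 4 := by
      rw [div_mul_eq_mul_div, le_div_iff₀ (by positivity), mul_comm]
      refine h.trans_eq ?_
      field_simp
      ring
    calc ‖lv v 0‖ ^ 3 ≤ (2 * (32 + 6144 * (r ^ 6 * M)) / r ^ 2 * s ^ 4) ^ 3 := by gcongr
      _ = (2 * (32 + 6144 * (r ^ 6 * M)) / r ^ 2) ^ 3 * ε ^ 2 := by rw [← hs6]; ring
      _ ≤ _ := mul_le_mul_of_nonneg_right (le_max_right _ _) (sq_nonneg _)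
  · have h1 : ‖lv v 0‖ ≤ M := (pi_norm_le_iff_of_nonneg hM0).2 fun j => hM [] (by simp) j 0 h0
    have h2 : (1 / 4 : ℝ) ^ 12 ≤ s ^ 12 := by gcongr; exact (not_le.1 hs4).le
    calc ‖lv v 0‖ ^ 3 ≤ M ^ 3 := by gcongr
      _ = M ^ 3 * 4 ^ 12 * (1 / 4) ^ 12 := by ring
      _ ≤ M ^ 3 * 4 ^ 12 * s ^ 12 := by gcongr
      _ = M ^ 3 * 4 ^ 12 * ε ^ 2 := by rw [← hs6]; ring
      _ ≤ _ := mul_le_mul_of_nonneg_right (le_max_left _ _) (sq_nonneg _)

end Pool.Agent.MP_67f0e4_gt.H71
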