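import Mathlib

/-! Second directional derivatives, the Laplacian, chain rule, radial functions. -/

namespace Pool.Agent.MP_67f0e4_gt.H71

open Set Filter Topology Real
open scoped RealInnerProductSpace

variable {E : Type} [NormedAddCommGroup E] [InnerProductSpace ℝ E]

/-- Second derivative in the direction `e`. -/
noncomputable def d2 (f : E → ℝ) (y e : E) : ℝ := fderiv ℝ (fun u => fderiv ℝ f u e) y e

theorem d1_diff {f : E → ℝ} {y : E} (hf : ContDiffAt ℝ 2 f y) (e : E) :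
    DifferentiableAt ℝ (fun u => fderiv ℝ f u e) y :=
  ((hf.fderiv_right (m := 1) (by norm_num)).clm_apply contDiffAt_const).differentiableAt
    (by norm_num)

theorem ev_diff {f : E → ℝ} {y : E} (hf : ContDiffAt ℝ 2 f y) :
    ∀ᶠ u in 𝓝 y, DifferentiableAt ℝ f u :=
  (hf.eventually (by simp)).mono fun _ h => h.differentiableAt (by norm_num)

theorem d2_congr {f g : E → ℝ} {y : E} (h : f =ᶠ[𝓝 y] g) (e : E) : d2 f y e = d2 g y e := by
  have h1 : (fun u => fderiv ℝ f u e) =ᶠ[𝓝 y] fun u => fderiv ℝ g u e :=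
    (h.fderiv (𝕜 := ℝ)).mono fun u hu => by simp only [hu]
  rw [d2, d2, h1.fderiv_eq]

theorem d2_comp {v : E → ℝ} {y : E} {Φ Φ' : ℝ → ℝ} {p : ℝ} (hv : ContDiffAt ℝ 2 v y)
    (h1 : ∀ᶠ t in 𝓝 (v y), HasDerivAt Φ (Φ' t) t) (h2 : HasDerivAt Φ' p (v y)) (e : E) :
    d2 (fun u => Φ (v u)) y e = p * fderiv ℝ v y e ^ 2 + Φ' (v y) * d2 v y e := by
  have hd := ev_diff hv
  have a1 : (fun u => fderiv ℝ (fun u => Φ (v u)) u e) =ᶠ[𝓝 y]
      fun u => Φ' (v u) * fderiv ℝ v u e := by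
    filter_upwards [hd, hv.continuousAt.eventually h1] with u hu hu'
    have := (hu'.comp_hasFDerivAt u hu.hasFDerivAt).fderiv
    rw [show (fun u => Φ (v u)) = Φ ∘ v from rfl, this]
    simp
  have a2 := (h2.comp_hasFDerivAt y hd.self_of_nhds.hasFDerivAt).mul (d1_diff hv e).hasFDerivAt
  rw [d2, a1.fderiv_eq]
  have a3 := a2.fderiv
  rw [show (fun u => Φ' (v u) * fderiv ℝ v u e) = (Φ' ∘ v) * fun u => fderiv ℝ v u e from rfl, a3]
  simp only [d2, add_apply, smul_apply, smul_eq_mul, Function.comp]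
  ring

theorem d2_add {f g : E → ℝ} {y : E} (hf : ContDiffAt ℝ 2 f y) (hg : ContDiffAt ℝ 2 g y) (e : E) :
    d2 (fun u => f u + g u) y e = d2 f y e + d2 g y e := by
  have a1 : (fun u => fderiv ℝ (fun u => f u + g u) u e) =ᶠ[𝓝 y]
      fun u => fderiv ℝ f u e + fderiv ℝ g u e := by
    filter_upwards [ev_diff hf, ev_diff hg] with u hu hu'
    rw [fderiv_fun_add hu hu']
    simp
  rw [d2, a1.fderiv_eq, fderiv_fun_add (d1_diff hf e) (d1_diff hg e)]
  simp [d2]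

theorem d2_mul {f : E → ℝ} {y : E} (hf : ContDiffAt ℝ 2 f y) (c : ℝ) (e : E) :
    d2 (fun u => c * f u) y e = c * d2 f y e := by
  have h := d2_comp (Φ := fun t => c * t) (Φ' := fun _ => c) (p := 0) hf
    (Eventually.of_forall fun t => by simpa using (hasDerivAt_id t).const_mul c)
    (hasDerivAt_const _ _) e
  simpa using h

theorem d2_const (c : ℝ) (y e : E) : d2 (fun _ => c) y e = 0 := by simp [d2]

theorem sq_fderiv (a y e : E) : fderiv ℝ (fun u => ‖u - a‖ ^ 2) y e = 2 * ⟪y - a, e⟫ := by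
  have h := (((hasFDerivAt_id y).sub_const a).norm_sq).fderiv
  simp only [id] at h
  rw [h]
  simp [inner_sub_left]

theorem sq_d2 (a y e : E) : d2 (fun u => ‖u - a‖ ^ 2) y e = 2 * ⟪e, e⟫ := by
  simp only [d2, sq_fderiv]
  have h : HasFDerivAt (fun u : E => 2 * ⟪u - a, e⟫) ((2 : ℝ) • innerSL ℝ e) y := by
    have h1 := ((innerSL ℝ e).hasFDerivAt (x := y)).sub_const ⟪e, a⟫
    refine (h1.const_mul 2).congr_of_eventuallyEq (Eventually.of_forall fun u => ?_)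
    simp [real_inner_comm, inner_sub_right]
  rw [h.fderiv]
  simp

theorem sq_cd (a y : E) : ContDiffAt ℝ 2 (fun u => ‖u - a‖ ^ 2) y :=
  ((contDiff_id.sub contDiff_const).norm_sq ℝ).contDiffAt

variable [FiniteDimensional ℝ E]

/-- The Laplacian as a sum of second derivatives. -/
noncomputable def lap (f : E → ℝ) (y : E) : ℝ := ∑ i, d2 f y (stdOrthonormalBasis ℝ E i)

theorem lap_onb {ι : Type} [Fintype ι] (b : OrthonormalBasis ι ℝ E) {f : E → ℝ} {y : E}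
    (hf : ContDiffAt ℝ 2 f y) : Laplacian.laplacian f y = ∑ i, d2 f y (b i) := by
  have d : DifferentiableAt ℝ (fderiv ℝ f) y :=
    (hf.fderiv_right (m := 1) (by norm_num)).differentiableAt (by norm_num)
  rw [InnerProductSpace.laplacian_eq_iteratedFDeriv_orthonormalBasis f b]
  refine Finset.sum_congr rfl fun i _ => ?_
  rw [iteratedFDeriv_two_apply, d2, fderiv_clm_apply d (differentiableAt_const _)]
  simp

theorem lap_eq {f : E → ℝ} {y : E} (hf : ContDiffAt ℝ 2 f y) :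
    Laplacian.laplacian f y = lap f y := lap_onb _ hf

theorem lap_congr {f g : E → ℝ} {y : E} (h : f =ᶠ[𝓝 y] g) : lap f y = lap g y :=
  Finset.sum_congr rfl fun _ _ => d2_congr h _

theorem lap_add {f g : E → ℝ} {y : E} (hf : ContDiffAt ℝ 2 f y) (hg : ContDiffAt ℝ 2 g y) :
    lap (fun u => f u + g u) y = lap f y + lap g y := by
  simp only [lap, d2_add hf hg, Finset.sum_add_distrib]

theorem lap_mul {f : E → ℝ} {y : E} (hf : ContDiffAt ℝ 2 f y) (c : ℝ) :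
    lap (fun u => c * f u) y = c * lap f y := by
  simp only [lap, d2_mul hf, Finset.mul_sum]

theorem lap_const (c : ℝ) (y : E) : lap (fun _ => c) y = 0 := by simp [lap, d2_const]

theorem lap_sum {ι : Type} (s : Finset ι) {f : ι → E → ℝ} {y : E}
    (hf : ∀ i ∈ s, ContDiffAt ℝ 2 (f i) y) :
    lap (fun u => ∑ i ∈ s, f i u) y = ∑ i ∈ s, lap (f i) y := by
  classical
  induction s using Finset.induction_on with
  | empty => simp [lap_const]
  | insert i s hi ih =>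
    simp only [Finset.sum_insert hi]
    rw [lap_add (hf i (Finset.mem_insert_self _ _))
      (ContDiffAt.sum fun j hj => hf j (Finset.mem_insert_of_mem hj)),
      ih fun j hj => hf j (Finset.mem_insert_of_mem hj)]

theorem lap_comp {v : E → ℝ} {y : E} {Φ Φ' : ℝ → ℝ} {p : ℝ} (hv : ContDiffAt ℝ 2 v y)
    (h1 : ∀ᶠ t in 𝓝 (v y), HasDerivAt Φ (Φ' t) t) (h2 : HasDerivAt Φ' p (v y)) :
    lap (fun u => Φ (v u)) y =
      p * ∑ i, fderiv ℝ v y (stdOrthonormalBasis ℝ E i) ^ 2 + Φ' (v y) * lap v y := by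
  simp only [lap, d2_comp hv h1 h2, Finset.sum_add_distrib, Finset.mul_sum]

theorem lap_rad (hE : Module.finrank ℝ E = 3) (a y : E) {Φ Φ' : ℝ → ℝ} {p : ℝ}
    (h1 : ∀ᶠ t in 𝓝 (‖y - a‖ ^ 2), HasDerivAt Φ (Φ' t) t) (h2 : HasDerivAt Φ' p (‖y - a‖ ^ 2)) :
    lap (fun u => Φ (‖u - a‖ ^ 2)) y = 4 * p * ‖y - a‖ ^ 2 + 6 * Φ' (‖y - a‖ ^ 2) := by
  rw [lap_comp (v := fun u => ‖u - a‖ ^ 2) (sq_cd a y) h1 h2]
  have a1 : ∑ i, fderiv ℝ (fun u => ‖u - a‖ ^ 2) y (stdOrthonormalBasis ℝ E i) ^ 2 =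
      4 * ‖y - a‖ ^ 2 := by
    rw [← (stdOrthonormalBasis ℝ E).sum_sq_inner_left (y - a), Finset.mul_sum]
    refine Finset.sum_congr rfl fun i _ => ?_
    rw [sq_fderiv]
    ring
  have a2 : lap (fun u => ‖u - a‖ ^ 2) y = 6 := by
    simp only [lap, sq_d2, real_inner_self_eq_norm_sq, (stdOrthonormalBasis ℝ E).norm_eq_one]
    simp [hE]
    norm_num
  rw [a1, a2]
  ring

theorem lap_norm (hE : Module.finrank ℝ E = 3) {a y : E} (h : y ≠ a) :
    ContDiffAt ℝ 2 (fun u => ‖u - a‖) y ∧ lap (fun u => ‖u - a‖) y = 2 / ‖y - a‖ := by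
  have h0 : 0 < ‖y - a‖ := norm_pos_iff.2 (sub_ne_zero.2 h)
  have hs : 0 < ‖y - a‖ ^ 2 := by positivity
  refine ⟨(contDiffAt_id.sub contDiffAt_const).norm ℝ (sub_ne_zero.2 h), ?_⟩
  have e : (fun u => ‖u - a‖) = fun u : E => √(‖u - a‖ ^ 2) := by
    funext u
    rw [Real.sqrt_sq (norm_nonneg _)]
  have hq : √(‖y - a‖ ^ 2) = ‖y - a‖ := Real.sqrt_sq h0.le
  have h2 := (((Real.hasDerivAt_sqrt hs.ne').const_mul 2).inv (by rw [hq]; positivity)).const_mul 1
  rw [e, lap_rad hE a y (Φ := fun t => √t) (Φ' := fun t => 1 * (2 * √t)⁻¹)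
    ((lt_mem_nhds hs).mono fun t ht => by simpa using Real.hasDerivAt_sqrt ht.ne') h2, hq]
  field_simp
  norm_num

theorem lap_log (hE : Module.finrank ℝ E = 3) {a y : E} (h : y ≠ a) :
    ContDiffAt ℝ 2 (fun u => log (‖u - a‖ ^ 2)) y ∧ 0 ≤ lap (fun u => log (‖u - a‖ ^ 2)) y := by
  have h0 : 0 < ‖y - a‖ := norm_pos_iff.2 (sub_ne_zero.2 h)
  have hs : 0 < ‖y - a‖ ^ 2 := by positivity
  refine ⟨(sq_cd a y).log hs.ne', ?_⟩
  rw [lap_rad hE a y (Φ := log) (Φ' := fun t => t⁻¹)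
    ((lt_mem_nhds hs).mono fun t ht => Real.hasDerivAt_log ht.ne') (hasDerivAt_inv hs.ne')]
  have e : 4 * -((‖y - a‖ ^ 2) ^ 2)⁻¹ * ‖y - a‖ ^ 2 + 6 * (‖y - a‖ ^ 2)⁻¹ =
      2 * (‖y - a‖ ^ 2)⁻¹ := by
    field_simp
    norm_num
  rw [e]
  positivity

end Pool.Agent.MP_67f0e4_gt.H71
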