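import Pool.Agent.MP_67f0e4_gt.H71.Lap

/-! The sub-mean value inequality with a smooth radial kernel. -/

namespace Pool.Agent.MP_67f0e4_gt.H71

open Set Filter Topology Real MeasureTheory Metric
open scoped RealInnerProductSpace

variable {E : Type} [NormedAddCommGroup E] [InnerProductSpace ℝ E]

/-- The potential of the kernel. -/
noncomputable def sg (y : E) : ℝ := expNegInvGlue (1 - ‖y‖ ^ 2)

/-- The radial kernel. -/
noncomputable def rho (y : E) : ℝ := 2 * deriv expNegInvGlue (1 - ‖y‖ ^ 2)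

theorem glue_cd (k : ℕ) : ContDiff ℝ k (deriv expNegInvGlue) :=
  (expNegInvGlue.contDiff (n := (k + 1 : ℕ))).deriv' (n := k)

theorem sg_cd : ContDiff ℝ 2 (sg : E → ℝ) :=
  (expNegInvGlue.contDiff (n := 2)).comp (contDiff_const.sub (contDiff_norm_sq ℝ))

theorem rho_cd : ContDiff ℝ 2 (rho : E → ℝ) :=
  contDiff_const.mul ((glue_cd 2).comp (contDiff_const.sub (contDiff_norm_sq ℝ)))

omit [InnerProductSpace ℝ E] in
theorem sg_nonneg (y : E) : 0 ≤ sg y := expNegInvGlue.nonneg _

omit [InnerProductSpace ℝ E] in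
theorem rho_nonneg (y : E) : 0 ≤ rho y :=
  mul_nonneg zero_le_two expNegInvGlue.monotone.deriv_nonneg

omit [InnerProductSpace ℝ E] in
theorem sg_zero {y : E} (h : 1 < ‖y‖) : sg y = 0 := expNegInvGlue.zero_of_nonpos (by nlinarith)

omit [InnerProductSpace ℝ E] in
theorem rho_zero {y : E} (h : 1 < ‖y‖) : rho y = 0 := by
  have h1 : 1 - ‖y‖ ^ 2 < 0 := by nlinarith
  have h2 : expNegInvGlue =ᶠ[𝓝 (1 - ‖y‖ ^ 2)] fun _ => 0 :=
    (gt_mem_nhds h1).mono fun t ht => expNegInvGlue.zero_of_nonpos ht.le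
  rw [rho, h2.deriv_eq]
  simp

theorem sg_fderiv (y e : E) : fderiv ℝ sg y e = -(⟪y, e⟫ * rho y) := by
  have h1 := (((hasFDerivAt_id y).norm_sq).const_sub 1)
  have h2 := ((expNegInvGlue.contDiff (n := 1)).differentiable (by norm_num)
    (1 - ‖y‖ ^ 2)).hasDerivAt
  have h3 := (h2.comp_hasFDerivAt y h1).fderiv
  rw [show (sg : E → ℝ) = expNegInvGlue ∘ fun x => 1 - ‖id x‖ ^ 2 from rfl, h3]
  simp [rho]
  ring

omit [InnerProductSpace ℝ E] in
theorem tsupp_sub {F : Type} [Zero F] {b : E → F} (hb : ∀ y, 1 < ‖y‖ → b y = 0) :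
    tsupport b ⊆ closedBall 0 1 :=
  closure_minimal (fun y hy => mem_closedBall_zero_iff.2 (not_lt.1 fun h => hy (hb y h)))
    isClosed_closedBall

variable [FiniteDimensional ℝ E]

theorem cpt_of {F : Type} [Zero F] {b : E → F} (hb : ∀ y, 1 < ‖y‖ → b y = 0) :
    HasCompactSupport b :=
  (isCompact_closedBall (0 : E) 1).of_isClosed_subset (isClosed_tsupport _) (tsupp_sub hb)

theorem cut {n : ℕ} {f : E → ℝ} {R₁ R₀ : ℝ} (h0 : 0 < R₁) (h1 : R₁ < R₀)
    (hf : ∀ y ∈ ball (0 : E) R₀, ContDiffAt ℝ n f y) :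
    ∃ g : E → ℝ, ContDiff ℝ n g ∧ ∀ y ∈ closedBall (0 : E) R₁, g =ᶠ[𝓝 y] f := by
  let χ : ContDiffBump (0 : E) := ⟨(2 * R₁ + R₀) / 3, (R₁ + 2 * R₀) / 3, by linarith, by linarith⟩
  refine ⟨fun y => χ y * f y, contDiff_iff_contDiffAt.2 fun y => ?_, fun y hy => ?_⟩
  · by_cases hy : y ∈ ball (0 : E) R₀
    · exact χ.contDiffAt.mul (hf y hy)
    · have h2 : (R₁ + 2 * R₀) / 3 < dist y 0 := by
        have := not_lt.1 (mt mem_ball.2 hy)
        linarith
      have h3 : ∀ᶠ u in 𝓝 y, (R₁ + 2 * R₀) / 3 < dist u 0 :=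
        (continuous_id.dist continuous_const).continuousAt.eventually (lt_mem_nhds h2)
      refine (contDiffAt_const (c := (0 : ℝ))).congr_of_eventuallyEq (h3.mono fun u hu => ?_)
      simp [χ.zero_of_le_dist hu.le]
  · have h2 : y ∈ ball (0 : E) χ.rIn := by
      have := mem_closedBall.1 hy
      exact mem_ball.2 (by change dist y 0 < (2 * R₁ + R₀) / 3; linarith)
    exact (χ.eventuallyEq_one_of_mem_ball h2).mono fun u hu => by simp [hu]

variable [MeasurableSpace E] [BorelSpace E]

theorem intg {a b : E → ℝ} {r : ℝ} (ha : ContinuousOn a (closedBall 0 r)) (hb : Continuous b)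
    (hs : ∀ y, r < ‖y‖ → b y = 0) : Integrable fun x => a x * b x := by
  refine (integrableOn_iff_integrable_of_support_subset (s := closedBall 0 r) fun x hx => ?_).1
    ((ha.mul hb.continuousOn).integrableOn_compact (isCompact_closedBall _ _))
  exact mem_closedBall_zero_iff.2 (not_lt.1 fun h => hx (by simp [hs x h]))

theorem rho_int : Integrable (rho : E → ℝ) :=
  rho_cd.continuous.integrable_of_hasCompactSupport (cpt_of fun _ => rho_zero)

theorem rho_pos [Nontrivial E] : 0 < ∫ y : E, rho y := by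
  obtain ⟨c, hc, hd⟩ := exists_deriv_eq_slope expNegInvGlue (zero_lt_one' ℝ)
    (expNegInvGlue.contDiff (n := 1)).continuous.continuousOn
    ((expNegInvGlue.contDiff (n := 1)).differentiable (by norm_num)).differentiableOn
  obtain ⟨y, hy⟩ := exists_norm_eq E (Real.sqrt_nonneg (1 - c))
  refine rho_cd.continuous.integral_pos_of_hasCompactSupport_nonneg_nonzero (x := y)
    (cpt_of fun _ => rho_zero) rho_nonneg ?_
  rw [rho, hy, Real.sq_sqrt (by linarith [hc.2]), sub_sub_cancel, hd]
  have := expNegInvGlue.pos_of_pos (zero_lt_one' ℝ)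
  simp only [expNegInvGlue.zero, sub_zero, div_one]
  positivity

theorem radial_nonneg {f : E → ℝ} (hf : ContDiff ℝ 2 f) (x : E) {t : ℝ} (ht : 0 ≤ t)
    (hl : ∀ y, ‖y‖ ≤ 1 → 0 ≤ lap f (x + t • y)) :
    0 ≤ ∫ y, fderiv ℝ f (x + t • y) y * rho y := by
  set b := stdOrthonormalBasis ℝ E with hb
  have hA : ContDiff ℝ 1 fun y : E => x + t • y := contDiff_const.add (contDiff_id.const_smul t)
  have hg : ∀ e, ContDiff ℝ 1 fun u => fderiv ℝ f u e := fun e =>
    (hf.fderiv_right (m := 1) (by norm_num)).clm_apply contDiff_const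
  have hc : ∀ e, Continuous fun y : E => d2 f (x + t • y) e := fun e =>
    (((hg e).continuous_fderiv (by norm_num)).clm_apply continuous_const).comp hA.continuous
  have hd : ∀ e y, fderiv ℝ (fun y : E => fderiv ℝ f (x + t • y) e) y e =
      t * d2 f (x + t • y) e := by
    intro e y
    have h1 : HasFDerivAt (fun y : E => x + t • y) (t • ContinuousLinearMap.id ℝ E) y :=
      ((hasFDerivAt_id y).const_smul t).const_add x
    have h2 := (((hg e).differentiable (by norm_num) (x + t • y)).hasFDerivAt.comp y h1).fderiv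
    rw [show (fun y : E => fderiv ℝ f (x + t • y) e) =
      (fun u => fderiv ℝ f u e) ∘ fun y : E => x + t • y from rfl, h2]
    simp [d2]
  have hs1 : ∀ e : E, Continuous fun y : E => fderiv ℝ sg y e := fun e =>
    (sg_cd.continuous_fderiv (by norm_num)).clm_apply continuous_const
  have hs0 : ∀ e y : E, 1 < ‖y‖ → fderiv ℝ sg y e = 0 := fun e y h => by
    simp [sg_fderiv, rho_zero h]
  have i1 : ∀ e : E, Integrable fun y => fderiv ℝ f (x + t • y) e * fderiv ℝ sg y e := fun e =>
    intg ((hg e).continuous.comp hA.continuous).continuousOn (hs1 e) (hs0 e)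
  have i2 : ∀ e : E, Integrable fun y => t * d2 f (x + t • y) e * sg y := fun e =>
    intg (continuous_const.mul (hc e)).continuousOn sg_cd.continuous fun _ => sg_zero
  have ibp : ∀ e : E, ∫ y, fderiv ℝ f (x + t • y) e * fderiv ℝ sg y e =
      -∫ y, t * d2 f (x + t • y) e * sg y := by
    intro e
    have h := integral_mul_fderiv_eq_neg_fderiv_mul_of_integrable (μ := volume)
      (f := fun y : E => fderiv ℝ f (x + t • y) e) (g := sg) (v := e)
      (by simpa only [hd] using i2 e) (i1 e)
      (intg ((hg e).continuous.comp hA.continuous).continuousOn sg_cd.continuous fun _ => sg_zero)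
      (fun y _ => ((hg e).comp hA).differentiable (by norm_num) y)
      (fun y _ => sg_cd.differentiable (by norm_num) y)
    simpa only [hd] using h
  have e1 : ∀ y, fderiv ℝ f (x + t • y) y * rho y =
      -∑ i, fderiv ℝ f (x + t • y) (b i) * fderiv ℝ sg y (b i) := by
    intro y
    conv_lhs => rw [show fderiv ℝ f (x + t • y) y =
      fderiv ℝ f (x + t • y) (∑ i, ⟪b i, y⟫ • b i) by rw [b.sum_repr' y]]
    simp only [map_sum, map_smul, smul_eq_mul, sg_fderiv, Finset.sum_mul, mul_neg,
      Finset.sum_neg_distrib, neg_neg]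
    refine Finset.sum_congr rfl fun i _ => ?_
    rw [real_inner_comm]
    ring
  simp only [e1]
  rw [integral_neg, integral_finsetSum _ fun i _ => i1 _]
  simp only [ibp, Finset.sum_neg_distrib, neg_neg]
  rw [← integral_finsetSum _ fun i _ => i2 _]
  refine integral_nonneg fun y => ?_
  have e2 : ∑ i, t * d2 f (x + t • y) (b i) * sg y = t * lap f (x + t • y) * sg y := by
    simp only [lap, Finset.mul_sum, Finset.sum_mul, hb]
  change 0 ≤ ∑ i, t * d2 f (x + t • y) (b i) * sg y
  rw [e2]
  by_cases hy : ‖y‖ ≤ 1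
  · exact mul_nonneg (mul_nonneg ht (hl y hy)) (sg_nonneg y)
  · simp [sg_zero (not_le.1 hy)]

theorem mean_deriv {f : E → ℝ} (hf : ContDiff ℝ 2 f) (x : E) (t : ℝ) :
    HasDerivAt (fun s : ℝ => ∫ y, f (x + s • y) * rho y)
      (∫ y, fderiv ℝ f (x + t • y) y * rho y) t := by
  have hA : ∀ s : ℝ, Continuous fun y : E => x + s • y := fun s => by fun_prop
  have hD := hf.continuous_fderiv (by norm_num)
  obtain ⟨M, hM⟩ := (isCompact_closedBall x (|t| + 1)).exists_bound_of_continuousOn hD.continuousOn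
  have i0 : ∀ s : ℝ, Integrable fun y : E => f (x + s • y) * rho y := fun s =>
    intg (hf.continuous.comp (hA s)).continuousOn rho_cd.continuous fun _ => rho_zero
  refine (hasDerivAt_integral_of_dominated_loc_of_deriv_le (μ := volume) (ball_mem_nhds t one_pos)
    (F := fun s y => f (x + s • y) * rho y) (F' := fun s y => fderiv ℝ f (x + s • y) y * rho y)
    (bound := fun y => M * rho y) (Eventually.of_forall fun s => (i0 s).aestronglyMeasurable)
    (i0 t) ?_ (Eventually.of_forall fun y s hs => ?_) (rho_int.const_mul M)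
    (Eventually.of_forall fun y s _ => ?_)).2
  · exact (((hD.comp (hA t)).clm_apply continuous_id).mul rho_cd.continuous).aestronglyMeasurable
  · by_cases hy : ‖y‖ ≤ 1
    · rw [norm_mul, Real.norm_of_nonneg (rho_nonneg y)]
      refine mul_le_mul_of_nonneg_right ?_ (rho_nonneg y)
      have h1 : |s| ≤ |t| + 1 := by
        have := abs_sub_abs_le_abs_sub s t
        have h2 := mem_ball.1 hs
        rw [Real.dist_eq] at h2
        linarith
      have h2 : x + s • y ∈ closedBall x (|t| + 1) := by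
        rw [mem_closedBall, dist_eq_norm, add_sub_cancel_left, norm_smul, Real.norm_eq_abs]
        exact (mul_le_of_le_one_right (abs_nonneg _) hy).trans h1
      have h3 := hM _ h2
      calc _ ≤ ‖fderiv ℝ f (x + s • y)‖ * ‖y‖ := ContinuousLinearMap.le_opNorm _ _
        _ ≤ M := (mul_le_of_le_one_right (norm_nonneg _) hy).trans h3
    · simp [rho_zero (not_le.1 hy)]
  · have h1 : HasDerivAt (fun s : ℝ => x + s • y) y s := by
      simpa using ((hasDerivAt_id s).smul_const y).const_add x
    exact ((hf.differentiable (by norm_num) _).hasFDerivAt.comp_hasDerivAt s h1).mul_const _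

theorem mean_smooth {f : E → ℝ} (hf : ContDiff ℝ 2 f) (x : E) {R : ℝ} (hR : 0 ≤ R)
    (hl : ∀ u ∈ closedBall x R, 0 ≤ lap f u) :
    f x * ∫ y : E, rho y ≤ ∫ y, f (x + R • y) * rho y := by
  have hm : MonotoneOn (fun s : ℝ => ∫ y, f (x + s • y) * rho y) (Icc 0 R) := by
    refine monotoneOn_of_hasDerivWithinAt_nonneg (convex_Icc 0 R)
      (fun t _ => (mean_deriv hf x t).continuousAt.continuousWithinAt)
      (fun t _ => (mean_deriv hf x t).hasDerivWithinAt) fun t ht => ?_
    have h1 := interior_subset ht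
    refine radial_nonneg hf x h1.1 fun y hy => hl _ ?_
    rw [mem_closedBall, dist_eq_norm, add_sub_cancel_left, norm_smul, Real.norm_of_nonneg h1.1]
    exact (mul_le_of_le_one_right h1.1 hy).trans h1.2
  have h := hm (left_mem_Icc.2 hR) (right_mem_Icc.2 hR) hR
  simpa only [zero_smul, add_zero, integral_const_mul] using h

end Pool.Agent.MP_67f0e4_gt.H71
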