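import Pool.Agent.MP_67f0e4_gt.H71.Mean

/-! Linear growth of the oscillation for symmetric functions on three-space whose Laplacian is
bounded by a sum of Coulomb potentials. -/

namespace Pool.Agent.MP_67f0e4_gt.H71

open Set Filter Topology Real MeasureTheory Metric
open scoped RealInnerProductSpace

/-- A convex function that vanishes on the left and has slope one on the right. -/
noncomputable def cvx (t : ℝ) : ℝ := ∫ s in (0 : ℝ)..t, smoothTransition s

theorem cvx_der (t : ℝ) : HasDerivAt cvx (smoothTransition t) t :=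
  (smoothTransition.continuous.integral_hasStrictDerivAt 0 t).hasDerivAt

theorem cvx_cd : ContDiff ℝ 2 cvx := by
  have h : deriv cvx = smoothTransition := funext fun t => (cvx_der t).deriv
  refine (contDiff_succ_iff_deriv (n := 1)).2 ⟨fun t => (cvx_der t).differentiableAt, by simp, ?_⟩
  rw [h]
  exact smoothTransition.contDiff (n := 1)

theorem cvx_zero {t : ℝ} (h : t ≤ 0) : cvx t = 0 := by
  rw [cvx, intervalIntegral.integral_congr (g := fun _ => 0) fun s hs =>
    smoothTransition.zero_of_nonpos (by rw [uIcc_of_ge h] at hs; exact hs.2)]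
  simp

theorem cvx_one {t : ℝ} (h : 1 ≤ t) : cvx t = t + (cvx 1 - 1) := by
  have h1 := intervalIntegral.integral_add_adjacent_intervals (μ := volume)
    (smoothTransition.continuous.intervalIntegrable 0 1)
    (smoothTransition.continuous.intervalIntegrable 1 t)
  rw [intervalIntegral.integral_congr (a := 1) (b := t) (g := fun _ => 1) fun s hs =>
    smoothTransition.one_of_one_le (by rw [uIcc_of_le h] at hs; exact hs.1)] at h1
  rw [cvx, cvx, ← h1]
  simp
  ring

theorem cvx_mono : Monotone cvx :=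
  monotone_of_deriv_nonneg (fun t => (cvx_der t).differentiableAt) fun t => by
    rw [(cvx_der t).deriv]; exact smoothTransition.nonneg t

variable {E : Type} [NormedAddCommGroup E] [InnerProductSpace ℝ E] [FiniteDimensional ℝ E]

theorem lap_cvx {v : E → ℝ} {y : E} (hv : ContDiffAt ℝ 2 v y) (hl : 0 ≤ lap v y) :
    0 ≤ lap (fun u => cvx (v u)) y := by
  rw [lap_comp hv (Eventually.of_forall cvx_der)
    ((smoothTransition.contDiff (n := 1)).differentiable (by norm_num) _).hasDerivAt]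
  exact add_nonneg (mul_nonneg smoothTransition.monotone.deriv_nonneg
    (Finset.sum_nonneg fun _ _ => sq_nonneg _)) (mul_nonneg (smoothTransition.nonneg _) hl)

omit [FiniteDimensional ℝ E] in
theorem mem_cb {x y : E} {R R₁ r : ℝ} (hR : 0 ≤ R) (hx : ‖x‖ + R * r ≤ R₁) (hy : ‖y‖ ≤ r) :
    x + R • y ∈ closedBall (0 : E) R₁ := by
  rw [mem_closedBall_zero_iff]
  refine (norm_add_le _ _).trans ?_
  rw [norm_smul, Real.norm_of_nonneg hR]
  linarith [mul_le_mul_of_nonneg_left hy hR]

variable [MeasurableSpace E] [BorelSpace E]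

theorem mean_sing (hE : Module.finrank ℝ E = 3) (S : Finset E) {f : E → ℝ} {R₀ R : ℝ} {x : E}
    (hc : ContinuousOn f (closedBall 0 R₀))
    (hf : ∀ y ∈ ball (0 : E) R₀, y ∉ S → ContDiffAt ℝ 2 f y ∧ 0 ≤ lap f y)
    (hR : 0 < R) (hx : ‖x‖ + R < R₀) (hxS : x ∉ S) :
    f x * ∫ y : E, rho y ≤ ∫ y, f (x + R • y) * rho y := by
  classical
  obtain ⟨M, hM⟩ := (isCompact_closedBall (0 : E) R₀).exists_bound_of_continuousOn hc
  have hM' : ∀ u ∈ closedBall (0 : E) R₀, -M ≤ f u ∧ f u ≤ M := fun u hu => abs_le.1 (hM u hu)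
  obtain ⟨N, hN⟩ : ∃ N : E → ℝ, N = fun u => ∑ a ∈ S, (log (‖u - a‖ ^ 2) + -(R₀ + ‖a‖) ^ 2) :=
    ⟨_, rfl⟩
  have hterm : ∀ u ∈ closedBall (0 : E) R₀, ∀ a : E,
      log (‖u - a‖ ^ 2) + -(R₀ + ‖a‖) ^ 2 ≤ 0 := by
    intro u hu a
    have h1 := Real.log_le_self (sq_nonneg ‖u - a‖)
    have h2 : ‖u - a‖ ≤ R₀ + ‖a‖ :=
      (norm_sub_le _ _).trans (by linarith [mem_closedBall_zero_iff.1 hu])
    linarith [pow_le_pow_left₀ (norm_nonneg _) h2 2]
  have hN0 : ∀ u ∈ closedBall (0 : E) R₀, N u ≤ 0 := fun u hu => by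
    rw [hN]; exact Finset.sum_nonpos fun a _ => hterm u hu a
  have hN1 : ∀ u ∈ closedBall (0 : E) R₀, ∀ a ∈ S, N u ≤ log (‖u - a‖ ^ 2) := by
    intro u hu a ha
    have h1 := Finset.add_sum_erase S (fun a => log (‖u - a‖ ^ 2) + -(R₀ + ‖a‖) ^ 2) ha
    have h2 : ∑ b ∈ S.erase a, (log (‖u - b‖ ^ 2) + -(R₀ + ‖b‖) ^ 2) ≤ 0 :=
      Finset.sum_nonpos fun b _ => hterm u hu b
    rw [hN]
    simp only at h1 ⊢
    linarith [sq_nonneg (R₀ + ‖a‖)]
  have hN2 : ∀ y, y ∉ S → ContDiffAt ℝ 2 N y ∧ 0 ≤ lap N y := by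
    intro y hy
    have h1 : ∀ a ∈ S, y ≠ a := fun a ha h => hy (h ▸ ha)
    have h2 : ∀ a ∈ S, ContDiffAt ℝ 2 (fun u => log (‖u - a‖ ^ 2) + -(R₀ + ‖a‖) ^ 2) y :=
      fun a ha => (lap_log hE (h1 a ha)).1.add contDiffAt_const
    rw [hN]
    refine ⟨ContDiffAt.sum h2, ?_⟩
    rw [lap_sum S h2]
    refine Finset.sum_nonneg fun a ha => ?_
    rw [lap_add (lap_log hE (h1 a ha)).1 contDiffAt_const, lap_const, add_zero]
    exact (lap_log hE (h1 a ha)).2
  have hxb : x ∈ closedBall (0 : E) R₀ := mem_closedBall_zero_iff.2 (by linarith)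
  have hmem : ∀ y : E, ‖y‖ ≤ 1 → x + R • y ∈ closedBall (0 : E) (‖x‖ + R) := fun y hy =>
    mem_cb hR.le (by linarith) hy
  have hsub : closedBall (0 : E) (‖x‖ + R) ⊆ closedBall 0 R₀ := closedBall_subset_closedBall hx.le
  have hA : Continuous fun y : E => x + R • y := by fun_prop
  have i0 : Integrable fun y : E => f (x + R • y) * rho y :=
    intg (hc.comp hA.continuousOn fun y hy => hsub (hmem y (mem_closedBall_zero_iff.1 hy)))
      rho_cd.continuous fun _ => rho_zero
  have key : ∀ ε : ℝ, 0 < ε → cvx (f x + ε * N x + (M + 1)) * ∫ y : E, rho y ≤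
      (∫ y, f (x + R • y) * rho y) + (M + 1 + (cvx 1 - 1)) * ∫ y : E, rho y := by
    intro ε hε
    obtain ⟨F, hF⟩ : ∃ F : E → ℝ, F = fun u => if u ∈ S then 0 else cvx (f u + ε * N u + (M + 1)) :=
      ⟨_, rfl⟩
    have hF2 : ∀ y ∈ ball (0 : E) R₀, ContDiffAt ℝ 2 F y ∧ 0 ≤ lap F y := by
      intro y hy
      by_cases hyS : y ∈ S
      · have h1 : ∀ᶠ u in 𝓝 y, ‖u - y‖ ^ 2 < exp (-(2 * M + 1) / ε) :=
          (show Continuous fun u : E => ‖u - y‖ ^ 2 by fun_prop).continuousAt.eventually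
            (gt_mem_nhds (by simpa using exp_pos _))
        have h2 : F =ᶠ[𝓝 y] fun _ => 0 := by
          filter_upwards [h1, isOpen_ball.mem_nhds hy] with u hu hu'
          rw [hF]
          by_cases huS : u ∈ S
          · simp [huS]
          · have h3 : 0 < ‖u - y‖ := norm_pos_iff.2 (sub_ne_zero.2 fun h => huS (h ▸ hyS))
            have h4 : log (‖u - y‖ ^ 2) ≤ -(2 * M + 1) / ε :=
              (Real.log_le_iff_le_exp (by positivity)).2 hu.le
            have h5 := (le_div_iff₀ hε).1 ((hN1 u (ball_subset_closedBall hu') y hyS).trans h4)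
            simp only [huS, if_false]
            exact cvx_zero (by linarith [(hM' u (ball_subset_closedBall hu')).2])
        exact ⟨contDiffAt_const.congr_of_eventuallyEq h2, by rw [lap_congr h2, lap_const]⟩
      · have h2 : F =ᶠ[𝓝 y] fun u => cvx (f u + ε * N u + (M + 1)) := by
          filter_upwards [S.finite_toSet.isClosed.isOpen_compl.mem_nhds hyS] with u hu
          rw [hF]
          exact if_neg hu
        have h3 := (hf y hy hyS).1.add (contDiffAt_const (c := ε).mul (hN2 y hyS).1)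
        have h4 := h3.add (contDiffAt_const (c := M + 1))
        refine ⟨(cvx_cd.contDiffAt.comp y h4).congr_of_eventuallyEq h2, ?_⟩
        rw [lap_congr h2]
        refine lap_cvx h4 ?_
        rw [lap_add h3 contDiffAt_const, lap_const, add_zero,
          lap_add (hf y hy hyS).1 (contDiffAt_const.mul (hN2 y hyS).1), lap_mul (hN2 y hyS).1]
        exact add_nonneg (hf y hy hyS).2 (mul_nonneg hε.le (hN2 y hyS).2)
    have hF3 : ∀ u ∈ closedBall (0 : E) R₀, F u ≤ f u + (M + 1 + (cvx 1 - 1)) := by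
      intro u hu
      have h1 := cvx_one (show 1 ≤ f u + (M + 1) by linarith [(hM' u hu).1])
      have h2 : F u ≤ cvx (f u + (M + 1)) := by
        rw [hF]
        by_cases huS : u ∈ S
        · simp only [huS, if_true]
          rw [← cvx_zero le_rfl]
          exact cvx_mono (by linarith [(hM' u hu).1])
        · simp only [huS, if_false]
          exact cvx_mono (by linarith [mul_nonneg hε.le (neg_nonneg.2 (hN0 u hu))])
      linarith
    obtain ⟨g, hg, hgF⟩ := cut (n := 2) (by positivity : 0 < ‖x‖ + R) hx fun y hy => (hF2 y hy).1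
    have h1 := mean_smooth hg x hR.le fun u hu => by
      have h2 : u ∈ closedBall (0 : E) (‖x‖ + R) :=
        closedBall_subset_closedBall' (by simp [add_comm]) hu
      rw [lap_congr (hgF u h2)]
      exact (hF2 u (closedBall_subset_ball hx h2)).2
    have h2 : g x = cvx (f x + ε * N x + (M + 1)) := by
      rw [(hgF x (mem_closedBall_zero_iff.2 (by linarith))).self_of_nhds, hF]
      exact if_neg hxS
    rw [← h2, ← integral_const_mul (M + 1 + (cvx 1 - 1)), ← integral_add i0 (rho_int.const_mul _)]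
    refine h1.trans (integral_mono (intg (hg.continuous.comp hA).continuousOn rho_cd.continuous
      fun _ => rho_zero) (i0.add (rho_int.const_mul _)) fun y => ?_)
    by_cases hy : ‖y‖ ≤ 1
    · have h3 := mul_le_mul_of_nonneg_right (hF3 _ (hsub (hmem y hy))) (rho_nonneg y)
      simp only [(hgF _ (hmem y hy)).self_of_nhds]
      linarith
    · simp [rho_zero (not_le.1 hy)]
  have hlim : Tendsto (fun ε : ℝ => cvx (f x + ε * N x + (M + 1)) * ∫ y : E, rho y) (𝓝[>] 0)
      (𝓝 (cvx (f x + 0 * N x + (M + 1)) * ∫ y : E, rho y)) :=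
    ((cvx_cd.continuous.comp (by fun_prop)).mul continuous_const).continuousAt.tendsto.mono_left
      nhdsWithin_le_nhds
  have h := le_of_tendsto hlim (eventually_mem_nhdsWithin.mono key)
  rw [zero_mul, add_zero, cvx_one (by linarith [(hM' x hxb).1])] at h
  linarith

omit [MeasurableSpace E] [BorelSpace E] in
theorem rho_tay : ∃ K : ℝ, 0 ≤ K ∧ ∀ y v : E,
    |rho (y - v) - rho y + fderiv ℝ rho y v| ≤ K * ‖v‖ ^ 2 := by
  obtain ⟨K, hK⟩ := ContDiff.lipschitzWith_of_hasCompactSupport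
    ((cpt_of (b := (rho : E → ℝ)) fun _ => rho_zero).fderiv ℝ)
    (rho_cd.fderiv_right (m := 1) (by norm_num)) (by norm_num)
  refine ⟨K, K.2, fun y v => ?_⟩
  have h := Convex.norm_image_sub_le_of_norm_fderiv_le' (𝕜 := ℝ) (f := (rho : E → ℝ))
    (s := closedBall y ‖v‖) (φ := fderiv ℝ rho y) (C := K * ‖v‖) (x := y) (y := y - v)
    (fun u _ => rho_cd.differentiable (by norm_num) u)
    (fun u hu => (hK.norm_sub_le u y).trans
      (mul_le_mul_of_nonneg_left (mem_closedBall_iff_norm.1 hu) K.2))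
    (convex_closedBall _ _) (mem_closedBall_self (norm_nonneg _)) (by simp)
  simp only [sub_sub_cancel_left, map_neg, norm_neg, sub_neg_eq_add, Real.norm_eq_abs] at h
  calc _ ≤ K * ‖v‖ * ‖v‖ := h
    _ = _ := by ring

omit [InnerProductSpace ℝ E] [FiniteDimensional ℝ E] [MeasurableSpace E] [BorelSpace E] in
theorem drho_zero [NormedSpace ℝ E] {y : E} (h : 1 < ‖y‖) : fderiv ℝ rho y = 0 := by
  have h1 : (rho : E → ℝ) =ᶠ[𝓝 y] fun _ => 0 :=
    (continuous_norm.continuousAt.eventually (lt_mem_nhds h)).mono fun u hu => rho_zero hu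
  rw [h1.fderiv_eq]
  simp

theorem sym_zero {w : E → ℝ} (hw : ContinuousOn w (closedBall 0 1)) (T₁ T₂ : E ≃ₗᵢ[ℝ] E)
    (hT : ∀ v, T₁ v = v → T₂ v = v → v = 0)
    (hs : ∀ y, ‖y‖ ≤ 1 → w (T₁ y) = w y ∧ w (T₂ y) = w y) (v : E) :
    ∫ y, w y * fderiv ℝ rho y v = 0 := by
  have hD := (rho_cd (E := E)).continuous_fderiv (by norm_num)
  have i1 : Integrable fun y : E => w y • fderiv ℝ rho y := by
    refine (integrableOn_iff_integrable_of_support_subset (s := closedBall 0 1) fun x hx => ?_).1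
      ((hw.smul hD.continuousOn).integrableOn_compact (isCompact_closedBall _ _))
    exact mem_closedBall_zero_iff.2 (not_lt.1 fun h => hx (by simp [drho_zero h]))
  obtain ⟨l, hl⟩ : ∃ l : E →L[ℝ] ℝ, l = ∫ y, w y • fderiv ℝ rho y := ⟨_, rfl⟩
  have h1 : ∀ u, l u = ∫ y, w y * fderiv ℝ rho y u := fun u => by
    rw [hl, ContinuousLinearMap.integral_apply i1]
    simp
  have h2 : ∀ T : E ≃ₗᵢ[ℝ] E, (∀ y, ‖y‖ ≤ 1 → w (T y) = w y) → ∀ u, l (T u) = l u := by
    intro T hT u
    rw [h1, h1, ← T.measurePreserving.integral_comp T.toHomeomorph.measurableEmbedding]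
    refine integral_congr_ae (Eventually.of_forall fun y => ?_)
    have h3 : fderiv ℝ rho (T y) (T u) = fderiv ℝ rho y u := by
      have h4 := ((rho_cd.differentiable (by norm_num) (T y)).hasFDerivAt.comp y
        T.toContinuousLinearEquiv.hasFDerivAt).fderiv
      have h5 : (rho : E → ℝ) ∘ T = rho := by
        funext z
        simp [rho]
      rw [h5] at h4
      rw [h4]
      simp
    simp only [h3]
    by_cases hy : ‖y‖ ≤ 1
    · rw [hT y hy]
    · simp [drho_zero (not_le.1 hy)]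
  obtain ⟨z, hz⟩ : ∃ z : E, ∀ u, ⟪z, u⟫ = l u :=
    ⟨(InnerProductSpace.toDual ℝ E).symm l, fun u => InnerProductSpace.toDual_symm_apply⟩
  have h3 : ∀ T : E ≃ₗᵢ[ℝ] E, (∀ u, l (T u) = l u) → T z = z := by
    intro T hT
    refine ext_inner_right ℝ fun u => ?_
    rw [hz, ← T.apply_symm_apply u, T.inner_map_map, hz, hT]
  have h4 := hT z (h3 _ (h2 _ fun y hy => (hs y hy).1)) (h3 _ (h2 _ fun y hy => (hs y hy).2))
  rw [← h1, ← hz, h4, inner_zero_left]

theorem shift_bound : ∃ K : ℝ, 0 ≤ K ∧ ∀ (w : E → ℝ) (O : ℝ) (T₁ T₂ : E ≃ₗᵢ[ℝ] E) (v : E),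
    ContinuousOn w (closedBall 0 2) → (∀ v, T₁ v = v → T₂ v = v → v = 0) →
    (∀ y, ‖y‖ ≤ 1 → w (T₁ y) = w y ∧ w (T₂ y) = w y) → (∀ y, ‖y‖ ≤ 2 → |w y - w 0| ≤ O) →
    ‖v‖ ≤ 1 → |(∫ y, w (v + y) * rho y) - ∫ y, w y * rho y| ≤ K * O * ‖v‖ ^ 2 := by
  obtain ⟨K, hK, hT⟩ := rho_tay (E := E)
  refine ⟨K * volume.real (closedBall (0 : E) 2), by positivity, ?_⟩
  intro w O T₁ T₂ v hw hf hs hO hv
  have hw' : ContinuousOn (fun y => w y - w 0) (closedBall 0 2) := hw.sub continuousOn_const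
  have hrv : Continuous fun y : E => rho (y - v) := rho_cd.continuous.comp (by fun_prop)
  have hz : ∀ y : E, 2 < ‖y‖ → rho (y - v) = 0 := fun y hy =>
    rho_zero (by linarith [norm_sub_norm_le y v])
  have hz1 : ∀ y : E, 2 < ‖y‖ → rho y = 0 := fun y hy => rho_zero (by linarith)
  have hz2 : ∀ y : E, 2 < ‖y‖ → fderiv ℝ rho y v = 0 := fun y hy => by
    simp [drho_zero (show 1 < ‖y‖ by linarith)]
  have hD : Continuous fun y : E => fderiv ℝ rho y v :=
    ((rho_cd (E := E)).continuous_fderiv (by norm_num)).clm_apply continuous_const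
  have e1 : ∫ y, w (v + y) * rho y = ∫ y, w y * rho (y - v) := by
    rw [← integral_add_left_eq_self (fun y => w y * rho (y - v)) v]
    simp
  have e2 : ∫ y, rho (y - v) = ∫ y : E, rho y := integral_sub_right_eq_self rho v
  have e3 := sym_zero (w := fun y => w y - w 0)
    (hw'.mono (closedBall_subset_closedBall one_le_two)) T₁ T₂ hf
    (fun y hy => by simp [hs y hy]) v
  have i1 := intg hw hrv hz
  have i2 := intg hw rho_cd.continuous hz1
  have i3 := intg hw' hD hz2
  have i4 : Integrable fun y : E => w 0 * rho (y - v) := intg continuousOn_const hrv hz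
  have i5 : Integrable fun y : E => w 0 * rho y := rho_int.const_mul _
  have e4 : ∫ y, (w y - w 0) * (rho (y - v) - rho y + fderiv ℝ rho y v) =
      (∫ y, w (v + y) * rho y) - ∫ y, w y * rho y := by
    have e5 : ∀ y, (w y - w 0) * (rho (y - v) - rho y + fderiv ℝ rho y v) =
        w y * rho (y - v) - w y * rho y - w 0 * rho (y - v) + w 0 * rho y +
          (w y - w 0) * fderiv ℝ rho y v := fun y => by ring
    simp only [e5]
    have j1 : Integrable fun y => w y * rho (y - v) - w y * rho y := i1.sub i2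
    have j2 : Integrable fun y => w y * rho (y - v) - w y * rho y - w 0 * rho (y - v) := j1.sub i4
    have j3 : Integrable fun y => w y * rho (y - v) - w y * rho y - w 0 * rho (y - v) +
      w 0 * rho y := j2.add i5
    rw [integral_add j3 i3, integral_add j2 i5, integral_sub j1 i4, integral_sub i1 i2,
      integral_const_mul, integral_const_mul, e1, e2, e3]
    ring
  rw [← e4, ← setIntegral_eq_integral_of_forall_compl_eq_zero (s := closedBall 0 2) fun y hy => by
    have h1 := not_le.1 (mt mem_closedBall_zero_iff.2 hy)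
    simp [hz y h1, hz1 y h1, hz2 y h1]]
  have h := norm_setIntegral_le_of_norm_le_const (μ := volume) (s := closedBall (0 : E) 2)
    (f := fun y => (w y - w 0) * (rho (y - v) - rho y + fderiv ℝ rho y v)) (C := O * (K * ‖v‖ ^ 2))
    measure_closedBall_lt_top fun y hy => by
      have h1 := hO y (mem_closedBall_zero_iff.1 hy)
      rw [norm_mul]
      exact mul_le_mul h1 (hT y v) (norm_nonneg _) ((abs_nonneg _).trans h1)
  calc _ ≤ O * (K * ‖v‖ ^ 2) * volume.real (closedBall (0 : E) 2) := h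
    _ = _ := by ring

theorem near_mean (hE : Module.finrank ℝ E = 3) (S : Finset E) {W : E → ℝ} {R₀ R g : ℝ} {x : E}
    (hg : 0 ≤ g) (hc : ContinuousOn W (closedBall 0 R₀))
    (hf : ∀ y ∈ ball (0 : E) R₀, y ∉ S → ContDiffAt ℝ 2 W y ∧
      -(g * ∑ a ∈ S, 2 / ‖y - a‖) ≤ lap W y)
    (hR : 0 < R) (hx : ‖x‖ + R < R₀) (hxS : x ∉ S) :
    W x * ∫ y : E, rho y ≤ (∫ y, W (x + R • y) * rho y) + S.card * g * R * ∫ y : E, rho y := by
  have hA : Continuous fun y : E => x + R • y := by fun_prop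
  have hP : Continuous fun u : E => g * ∑ a ∈ S, ‖u - a‖ := by fun_prop
  have h := mean_sing hE S (f := fun u => W u + g * ∑ a ∈ S, ‖u - a‖) (hc.add hP.continuousOn)
    (fun y hy hyS => by
      have h1 : ∀ a ∈ S, y ≠ a := fun a ha h => hyS (h ▸ ha)
      have h2 : ∀ a ∈ S, ContDiffAt ℝ 2 (fun u => ‖u - a‖) y := fun a ha =>
        (lap_norm hE (h1 a ha)).1
      have h3 := ContDiffAt.sum h2
      refine ⟨(hf y hy hyS).1.add (contDiffAt_const.mul h3), ?_⟩
      rw [lap_add (hf y hy hyS).1 (contDiffAt_const.mul h3), lap_mul h3, lap_sum S h2,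
        Finset.sum_congr rfl fun a ha => (lap_norm hE (h1 a ha)).2]
      linarith [(hf y hy hyS).2]) hR hx hxS
  have i0 : Integrable fun y : E => W (x + R • y) * rho y :=
    intg (hc.comp hA.continuousOn fun y hy =>
      mem_cb hR.le (by linarith) (mem_closedBall_zero_iff.1 hy)) rho_cd.continuous fun _ => rho_zero
  have i1 : Integrable fun y : E => (g * ∑ a ∈ S, ‖x + R • y - a‖) * rho y :=
    intg (hP.comp hA).continuousOn rho_cd.continuous fun _ => rho_zero
  have h2 : ∫ y, (g * ∑ a ∈ S, ‖x + R • y - a‖) * rho y ≤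
      ∫ y : E, (g * ∑ a ∈ S, ‖x - a‖ + S.card * g * R) * rho y := by
    refine integral_mono i1 (rho_int.const_mul _) fun y => ?_
    by_cases hy : ‖y‖ ≤ 1
    · refine mul_le_mul_of_nonneg_right ?_ (rho_nonneg y)
      have h3 : ∑ a ∈ S, ‖x + R • y - a‖ ≤ ∑ a ∈ S, (‖x - a‖ + R) := by
        refine Finset.sum_le_sum fun a _ => ?_
        rw [add_sub_right_comm]
        refine (norm_add_le _ _).trans ?_
        rw [norm_smul, Real.norm_of_nonneg hR.le]
        linarith [mul_le_of_le_one_right hR.le hy]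
      rw [Finset.sum_add_distrib, Finset.sum_const, nsmul_eq_mul] at h3
      linarith [mul_le_mul_of_nonneg_left h3 hg]
    · simp [rho_zero (not_le.1 hy)]
  simp only [add_mul] at h
  rw [integral_add i0 i1] at h
  rw [integral_const_mul] at h2
  linarith

omit [MeasurableSpace E] [BorelSpace E] in
/-- The oscillation grows at most linearly in the radius. -/
theorem osc (hE : Module.finrank ℝ E = 3) : ∃ C : ℝ, 0 < C ∧ ∀ (S : Finset E) (W : E → ℝ)
    (R₀ g A : ℝ) (T₁ T₂ : E ≃ₗᵢ[ℝ] E), 0 ≤ g → ContinuousOn W (closedBall 0 R₀) →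
    (∀ y ∈ ball (0 : E) R₀, y ∉ S → ContDiffAt ℝ 2 W y ∧
      |lap W y| ≤ g * ∑ a ∈ S, 2 / ‖y - a‖) →
    (∀ v, T₁ v = v → T₂ v = v → v = 0) →
    (∀ y ∈ ball (0 : E) R₀, W (T₁ y) = W y ∧ W (T₂ y) = W y) →
    (∀ x ∈ closedBall (0 : E) R₀, ∀ y ∈ closedBall (0 : E) R₀, W x - W y ≤ A * R₀) →
    ∀ r, 0 < r → r ≤ R₀ → ∀ x ∈ closedBall (0 : E) r, ∀ y ∈ closedBall (0 : E) r,
      W x - W y ≤ C * (A + S.card * g) * r := by
  borelize E
  have : Nontrivial E := Module.nontrivial_of_finrank_pos (R := ℝ) (by omega)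
  obtain ⟨K, hK, hsh⟩ := shift_bound (E := E)
  obtain ⟨c, hc⟩ : ∃ c, c = ∫ y : E, rho y := ⟨_, rfl⟩
  have hc0 : 0 < c := by rw [hc]; exact rho_pos
  obtain ⟨lam, hl3, hlK⟩ : ∃ lam : ℝ, 3 ≤ lam ∧ 16 * K ≤ lam * c :=
    ⟨max 3 (16 * K / c), le_max_left _ _, (div_le_iff₀ hc0).1 (le_max_right _ _)⟩
  have hl0 : 0 < lam := by linarith
  refine ⟨2 * lam, by positivity, ?_⟩
  intro S W R₀ g A T₁ T₂ hg hW hf hT hs hA r hr hrR
  have hA0 : 0 ≤ A := by
    have h1 := hA 0 (mem_closedBall_self (by linarith)) 0 (mem_closedBall_self (by linarith))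
    rw [sub_self] at h1
    exact nonneg_of_mul_nonneg_left h1 (by linarith)
  obtain ⟨B, hB⟩ : ∃ B, B = 2 * lam * (A + S.card * g) := ⟨_, rfl⟩
  have hn : (0 : ℝ) ≤ S.card * g := by positivity
  have hB0 : 0 ≤ B := by rw [hB]; positivity
  rw [← hB]
  have base : ∀ r, 0 < r → r ≤ R₀ → R₀ ≤ lam * r → ∀ x ∈ closedBall (0 : E) r,
      ∀ y ∈ closedBall (0 : E) r, W x - W y ≤ B * r := by
    intro r hr hrR h x hx y hy
    have h1 := hA x (closedBall_subset_closedBall hrR hx) y (closedBall_subset_closedBall hrR hy)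
    have h2 := mul_le_mul_of_nonneg_left h hA0
    have h3 : 0 ≤ lam * A * r := by positivity
    have h4 : 0 ≤ lam * (S.card * g) * r := by positivity
    rw [hB]
    linarith
  have step : ∀ r, 0 < r → lam * r < R₀ → (∀ x ∈ closedBall (0 : E) (lam * r),
      ∀ y ∈ closedBall (0 : E) (lam * r), W x - W y ≤ B * (lam * r)) →
      ∀ x ∈ closedBall (0 : E) r, ∀ y ∈ closedBall (0 : E) r, W x - W y ≤ B * r := by
    intro r hr h ih
    obtain ⟨R, hR⟩ : ∃ R, R = lam * r / 2 := ⟨_, rfl⟩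
    have hR0 : 0 < R := by rw [hR]; positivity
    have hrR : r ≤ R := by rw [hR]; nlinarith
    have h2R : 2 * R = lam * r := by rw [hR]; ring
    have hm : ∀ y : E, ‖y‖ ≤ 2 → R • y ∈ closedBall (0 : E) (lam * r) := fun y hy => by
      simpa using mem_cb (x := 0) (R₁ := lam * r) hR0.le (by simp; linarith) hy
    have hb : ∀ x ∈ ball (0 : E) r ∩ (↑S)ᶜ,
        |W x * c - ∫ y, W (R • y) * rho y| ≤ B * r / 2 * c := by
      intro x hx
      have hx1 := mem_ball_zero_iff.1 hx.1
      have a1 := near_mean hE S hg hW (fun y hy hyS => ⟨(hf y hy hyS).1,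
        (abs_le.1 (hf y hy hyS).2).1⟩) hR0 (show ‖x‖ + R < R₀ by linarith) hx.2
      have a2 := near_mean hE S (W := fun u => -1 * W u) hg (continuousOn_const.mul hW)
        (fun y hy hyS => ⟨contDiffAt_const.mul (hf y hy hyS).1, by
          rw [lap_mul (hf y hy hyS).1]
          linarith [(abs_le.1 (hf y hy hyS).2).2]⟩) hR0 (show ‖x‖ + R < R₀ by linarith) hx.2
      simp only [neg_mul, one_mul, integral_neg] at a2
      rw [← hc] at a1 a2
      have hv : ‖R⁻¹ • x‖ = ‖x‖ / R := by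
        rw [norm_smul, Real.norm_of_nonneg (inv_pos.2 hR0).le, div_eq_inv_mul]
      have a3 := hsh (fun y => W (R • y)) (B * (lam * r)) T₁ T₂ (R⁻¹ • x)
        (hW.comp (by fun_prop) fun y hy => closedBall_subset_closedBall h.le
          (hm y (mem_closedBall_zero_iff.1 hy))) hT
        (fun y hy => by
          simp only [← map_smul]
          exact hs _ (closedBall_subset_ball h (hm y (by linarith))))
        (fun y hy => abs_sub_le_iff.2 ⟨ih _ (hm y hy) _ (hm 0 (by simp)),
          ih _ (hm 0 (by simp)) _ (hm y hy)⟩)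
        (by rw [hv]; exact (div_le_one hR0).2 (by linarith))
      simp only [smul_add, smul_inv_smul₀ hR0.ne'] at a3
      have a4 : ‖R⁻¹ • x‖ ^ 2 ≤ (2 / lam) ^ 2 := by
        refine pow_le_pow_left₀ (norm_nonneg _) ?_ 2
        rw [hv, div_le_div_iff₀ hR0 hl0]
        nlinarith
      have a5 : K * (B * (lam * r)) * ‖R⁻¹ • x‖ ^ 2 ≤ B * r / 4 * c :=
        calc K * (B * (lam * r)) * ‖R⁻¹ • x‖ ^ 2 ≤ K * (B * (lam * r)) * (2 / lam) ^ 2 := by gcongr
          _ = 16 * K * (B * r / 4 / lam) := by field_simp; ring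
          _ ≤ lam * c * (B * r / 4 / lam) := by gcongr
          _ = _ := by field_simp
      have a6 : S.card * g * R * c ≤ B * r / 4 * c := by
        refine mul_le_mul_of_nonneg_right ?_ hc0.le
        have h3 : 0 ≤ lam * A * r := by positivity
        rw [hB, hR]
        linarith
      obtain ⟨a7, a8⟩ := abs_le.1 (a3.trans a5)
      exact abs_le.2 ⟨by linarith, by linarith⟩
    have hcl : closedBall (0 : E) r ⊆ closure (ball (0 : E) r ∩ (↑S)ᶜ) := by
      rw [← closure_ball _ hr.ne']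
      exact closure_minimal ((S.finite_toSet.countable.dense_compl ℝ).open_subset_closure_inter
        isOpen_ball) isClosed_closure
    have hb2 : ∀ x ∈ closedBall (0 : E) r,
        |W x * c - ∫ y, W (R • y) * rho y| ≤ B * r / 2 * c := by
      intro x hx
      have hsub : closedBall (0 : E) r ⊆ closedBall 0 R₀ :=
        closedBall_subset_closedBall (by linarith)
      have h1 : ContinuousWithinAt W (ball (0 : E) r ∩ (↑S)ᶜ) x :=
        (hW x (hsub hx)).mono fun u hu => hsub (ball_subset_closedBall hu.1)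
      exact ContinuousWithinAt.closure_le (hcl hx)
        ((h1.mul continuousWithinAt_const).sub continuousWithinAt_const).abs
        continuousWithinAt_const hb
    intro x hx y hy
    have b1 := (abs_le.1 (hb2 x hx)).2
    have b2 := (abs_le.1 (hb2 y hy)).1
    refine le_of_mul_le_mul_right ?_ hc0
    linarith
  have ind : ∀ k : ℕ, ∀ r, 0 < r → r ≤ R₀ → R₀ ≤ lam ^ k * r → ∀ x ∈ closedBall (0 : E) r,
      ∀ y ∈ closedBall (0 : E) r, W x - W y ≤ B * r := by
    intro k
    induction k with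
    | zero => exact fun r hr hrR h => base r hr hrR (by rw [pow_zero] at h; nlinarith)
    | succ k ih =>
      intro r hr hrR h
      by_cases h1 : R₀ ≤ lam * r
      · exact base r hr hrR h1
      · refine step r hr (not_le.1 h1) (ih _ (by positivity) (not_le.1 h1).le ?_)
        rw [← mul_assoc, ← pow_succ]
        exact h
  obtain ⟨k, hk⟩ := pow_unbounded_of_one_lt (R₀ / r) (show 1 < lam by linarith)
  exact ind k r hr hrR ((div_le_iff₀ hr).1 hk.le)

end Pool.Agent.MP_67f0e4_gt.H71
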